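import Mathlib

/-!
# MP_b400b0_nt: quotients of affine additive maps

`F` finite field, `K` its algebraic closure, `f, g ∈ F[x]`, and `g ∘ π = π ∘ (L + c)` with `π, L ∈ K[x]`
nonconstant, `L` additive with a nonzero root.  Then `M_{f,g}(n)` has exact order `n`.

Upper bound: let `Φ` be a power of the Frobenius which fixes the coefficients of `π, L`, `c`, the
roots of `L` and the roots of `f ∘ π`.  On the kernel of `L^{(n)}` the operator `Φ - 1` satisfies
`(Φ - 1)^n = 0`, so `Φ ^ (p ^ k) = 1` there for `p ^ k ≥ n`.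
Lower bound: `f(g^{(n)})` has at least `2 ^ n / deg π` distinct roots.
-/

set_option autoImplicit false

namespace Pool.Agent.Results.MP_b400b0_nt.AdditiveQuotients

open Polynomial

/-- `g^{(n)}`: `g^{(0)} = x`, `g^{(n+1)} = g(g^{(n)}(x))`. -/
noncomputable def it {F : Type} [Field F] (g : F[X]) (n : ℕ) : F[X] := (g.comp)^[n] X

/-- `M_{f,g}(n)`: the largest degree of an irreducible factor of `f(g^{(n)}(x))` over `F`. -/
noncomputable def maxDeg {F : Type} [Field F] (f g : F[X]) (n : ℕ) : ℕ :=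
  sSup {m | ∃ h : F[X], Irreducible h ∧ h ∣ f.comp (it g n) ∧ h.natDegree = m}

variable {F : Type} [Field F]

theorem it_succ (g : F[X]) (n : ℕ) : it g (n + 1) = g.comp (it g n) := by
  unfold it
  rw [Function.iterate_succ_apply']

theorem natDegree_it (g : F[X]) (n : ℕ) : (it g n).natDegree = g.natDegree ^ n := by
  unfold it
  rw [natDegree_iterate_comp, natDegree_X, mul_one]

section K

variable {K : Type} [Field K] [Algebra F K]

theorem aeval_it (g : F[X]) (n : ℕ) (x : K) :
    aeval x (it g n) = (fun y : K => aeval y g)^[n] x := by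
  induction n with
  | zero => simp [it]
  | succ n ih => rw [it_succ, aeval_comp, ih, Function.iterate_succ_apply']

theorem comp_ne_zero (f g : F[X]) (hf : f ≠ 0) (hg : 1 ≤ g.natDegree) (n : ℕ) :
    f.comp (it g n) ≠ 0 := by
  intro h
  rw [comp_eq_zero_iff] at h
  rcases h with h | ⟨-, h⟩
  · exact hf h
  · have h1 := natDegree_it g n
    rw [h, natDegree_C] at h1
    have : 0 < g.natDegree ^ n := Nat.pow_pos (by omega)
    omega

theorem le_maxDeg (f g : F[X]) (hf : f ≠ 0) (hg : 1 ≤ g.natDegree) (n : ℕ) (z : K)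
    (hz : aeval z (f.comp (it g n)) = 0) : (minpoly F z).natDegree ≤ maxDeg f g n := by
  have hP := comp_ne_zero f g hf hg n
  have hint : IsIntegral F z := isAlgebraic_iff_isIntegral.1 ⟨_, hP, hz⟩
  refine le_csSup ⟨(f.comp (it g n)).natDegree, ?_⟩
    ⟨minpoly F z, minpoly.irreducible hint, minpoly.dvd F z hz, rfl⟩
  rintro m ⟨h, -, hd, rfl⟩
  exact natDegree_le_of_dvd hd hP

end K

section Frob

variable [Fintype F] {K : Type} [Field K] [Algebra F K]

theorem frob_pow (n : ℕ) (z : K) :
    (FiniteField.frobeniusAlgHom F K ^ n) z = z ^ (Fintype.card F ^ n) := by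
  rw [AlgHom.coe_pow, FiniteField.coe_frobeniusAlgHom, pow_iterate]

theorem frob_iff [Algebra.IsAlgebraic F K] (z : K) (m : ℕ) :
    z ^ (Fintype.card F ^ m) = z ↔ (minpoly F z).natDegree ∣ m := by
  have hz : IsIntegral F z := Algebra.IsIntegral.isIntegral z
  rw [(minpoly.irreducible hz).natDegree_dvd_iff_dvd_X_pow_card_pow_sub_X, minpoly.dvd_iff,
    Nat.card_eq_fintype_card, map_sub, map_pow, aeval_X, sub_eq_zero]

theorem exists_s [Algebra.IsAlgebraic F K] (S : Finset K) :
    ∃ s : ℕ, 1 ≤ s ∧ ∀ z ∈ S, z ^ (Fintype.card F ^ s) = z := by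
  refine ⟨∏ z ∈ S, (minpoly F z).natDegree, ?_, fun z hz => (frob_iff z _).2
    (Finset.dvd_prod_of_mem _ hz)⟩
  exact Finset.prod_pos fun z _ => minpoly.natDegree_pos (Algebra.IsIntegral.isIntegral (R := F) z)

end Frob

section main

variable {K : Type} [Field K] [Algebra F K]

theorem semiconj (g : F[X]) (L π : K[X]) (c : K)
    (h : (g.map (algebraMap F K)).comp π = π.comp (L + C c)) (n : ℕ) (y : K) :
    (fun y : K => aeval y g)^[n] (π.eval y) = π.eval ((fun z : K => L.eval z + c)^[n] y) := by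
  induction n generalizing y with
  | zero => rfl
  | succ n ih =>
    rw [Function.iterate_succ_apply, Function.iterate_succ_apply]
    have h1 : aeval (π.eval y) g = π.eval (L.eval y + c) := by
      have := congrArg (eval y) h
      rw [eval_comp, eval_comp, eval_add, eval_C, eval_map_algebraMap] at this
      exact this
    rw [h1, ih]

theorem surjK [IsAlgClosed K] (P : K[X]) (hP : 1 ≤ P.natDegree) (y : K) :
    ∃ x : K, P.eval x = y := by
  have h1 : (P - C y).degree ≠ 0 := by
    intro h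
    have h2 := natDegree_eq_zero_iff_degree_le_zero.2 h.le
    rw [natDegree_sub_C] at h2
    omega
  obtain ⟨x, hx⟩ := IsAlgClosed.exists_root _ h1
  refine ⟨x, ?_⟩
  rw [IsRoot.def, eval_sub, eval_C, sub_eq_zero] at hx
  exact hx

theorem exists_pow_between (p m : ℕ) (hp : 2 ≤ p) (hm : 1 ≤ m) : ∃ k, m ≤ p ^ k ∧ p ^ k ≤ p * m := by
  refine ⟨Nat.log p m + 1, (Nat.lt_pow_succ_log_self (by omega) m).le, ?_⟩
  rw [pow_succ, mul_comm]
  exact Nat.mul_le_mul_left _ (Nat.pow_log_le_self p (by omega))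

theorem upper [Fintype F] [IsAlgClosed K] [Algebra.IsAlgebraic F K] (f g : F[X]) (hf : f ≠ 0)
    (L π : K[X]) (c : K) (hL : ∀ x y, L.eval (x + y) = L.eval x + L.eval y) (hL0 : L ≠ 0)
    (hπ : 1 ≤ π.natDegree) (h : (g.map (algebraMap F K)).comp π = π.comp (L + C c)) :
    ∃ B : ℕ, 1 ≤ B ∧ ∀ n, maxDeg f g n ≤ B * (n + 1) := by
  classical
  obtain ⟨p, hp⟩ := CharP.exists F
  have hpp : p.Prime := CharP.char_is_prime F p
  have : Fact p.Prime := ⟨hpp⟩
  obtain ⟨R, hR⟩ : ∃ R : K[X], R = (f.map (algebraMap F K)).comp π := ⟨_, rfl⟩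
  have hR0 : R ≠ 0 := by
    rw [hR]
    intro h0
    rw [comp_eq_zero_iff] at h0
    rcases h0 with h0 | ⟨-, h0⟩
    · rw [Polynomial.map_eq_zero] at h0
      exact hf h0
    · rw [h0, natDegree_C] at hπ
      omega
  obtain ⟨S, hS⟩ : ∃ S : Finset K, S = L.support.image L.coeff ∪ π.support.image π.coeff ∪ {c} ∪
      L.roots.toFinset ∪ R.roots.toFinset := ⟨_, rfl⟩
  obtain ⟨s, hs1, hs⟩ := exists_s (F := F) S
  obtain ⟨Φ, hΦ⟩ : ∃ Φ : K →ₐ[F] K, ∀ z, Φ z = z ^ (Fintype.card F ^ s) :=
    ⟨FiniteField.frobeniusAlgHom F K ^ s, frob_pow s⟩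
  have hfix : ∀ z ∈ S, Φ z = z := fun z hz => by rw [hΦ]; exact hs z hz
  have hfixpoly : ∀ P : K[X], (∀ i, Φ (P.coeff i) = P.coeff i) →
      ∀ y, Φ (P.eval y) = P.eval (Φ y) := by
    intro P hP y
    have h1 : P.map (Φ : K →+* K) = P := by
      ext i
      rw [coeff_map]
      exact hP i
    have h2 : eval ((Φ : K →+* K) y) (P.map (Φ : K →+* K)) = (Φ : K →+* K) (P.eval y) := by
      rw [eval_map, eval₂_at_apply]
    rw [h1] at h2
    exact h2.symm
  have hLc : ∀ i, Φ (L.coeff i) = L.coeff i := by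
    intro i
    by_cases hi : L.coeff i = 0
    · rw [hi, map_zero]
    · apply hfix
      rw [hS]
      simp only [Finset.mem_union]
      exact Or.inl (Or.inl (Or.inl (Or.inl (Finset.mem_image_of_mem _ (mem_support_iff.2 hi)))))
  have hπc : ∀ i, Φ (π.coeff i) = π.coeff i := by
    intro i
    by_cases hi : π.coeff i = 0
    · rw [hi, map_zero]
    · apply hfix
      rw [hS]
      simp only [Finset.mem_union]
      exact Or.inl (Or.inl (Or.inl (Or.inr (Finset.mem_image_of_mem _ (mem_support_iff.2 hi)))))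
  have hcc : Φ c = c := by
    apply hfix
    rw [hS]
    simp
  have hLr : ∀ z, L.eval z = 0 → Φ z = z := by
    intro z hz
    apply hfix
    rw [hS]
    simp only [Finset.mem_union]
    exact Or.inl (Or.inr (by rw [Multiset.mem_toFinset, mem_roots hL0]; exact hz))
  have hRr : ∀ z, R.eval z = 0 → Φ z = z := by
    intro z hz
    apply hfix
    rw [hS]
    simp only [Finset.mem_union]
    exact Or.inr (by rw [Multiset.mem_toFinset, mem_roots hR0]; exact hz)
  have hΦL := hfixpoly L hLc
  have hΦπ := hfixpoly π hπc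
  obtain ⟨Λ, hΛ⟩ : ∃ Λ : K →+ K, ∀ z, Λ z = L.eval z := ⟨AddMonoidHom.mk' (fun z => L.eval z) hL, fun _ => rfl⟩
  have hΛΦ : ∀ n z, Λ^[n] (Φ z) = Φ (Λ^[n] z) := by
    intro n
    induction n with
    | zero => intro z; rfl
    | succ n ih =>
      intro z
      rw [Function.iterate_succ_apply, Function.iterate_succ_apply, hΛ, ← hΦL, ih, hΛ]
  have hψ : ∀ n a b, (fun z : K => L.eval z + c)^[n] a - (fun z : K => L.eval z + c)^[n] b =
      Λ^[n] (a - b) := by
    intro n
    induction n with
    | zero => intro a b; rfl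
    | succ n ih =>
      intro a b
      rw [Function.iterate_succ_apply, Function.iterate_succ_apply, Function.iterate_succ_apply, ih,
        map_sub, hΛ, hΛ]
      congr 1
      ring
  have hψΦ : ∀ n z, (fun z : K => L.eval z + c)^[n] (Φ z) = Φ ((fun z : K => L.eval z + c)^[n] z) := by
    intro n
    induction n with
    | zero => intro z; rfl
    | succ n ih =>
      intro z
      rw [Function.iterate_succ_apply, Function.iterate_succ_apply, ← ih, map_add, hcc, hΦL]
  obtain ⟨T, hT⟩ : ∃ T : Module.End F K, T = Φ.toLinearMap - 1 := ⟨_, rfl⟩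
  have hTa : ∀ z, T z = Φ z - z := by
    intro z
    rw [hT]
    rfl
  have hTn : ∀ n v, Λ^[n] v = 0 → (T ^ n) v = 0 := by
    intro n
    induction n with
    | zero => intro v hv; simpa using hv
    | succ n ih =>
      intro v hv
      rw [Function.iterate_succ_apply'] at hv
      have h1 := hLr _ (by rw [← hΛ]; exact hv)
      rw [pow_succ, Module.End.mul_apply, hTa]
      apply ih
      have h2 : Λ^[n] (Φ v - v) = Λ^[n] (Φ v) - Λ^[n] v := iterate_map_sub Λ n _ _
      rw [h2, hΛΦ, h1, sub_self]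
  have hTp : ∀ k, T ^ p ^ k = (Φ.toLinearMap : Module.End F K) ^ p ^ k - 1 := by
    intro k
    have h1 : (X - 1 : F[X]) ^ p ^ k = X ^ p ^ k - 1 := by
      rw [sub_pow_char_pow, one_pow]
    have h2 := congrArg (aeval (Φ.toLinearMap : Module.End F K)) h1
    rw [map_pow, map_sub, map_sub, map_pow, aeval_X, map_one] at h2
    rw [hT, h2]
  have hΦj : ∀ j z, (⇑Φ)^[j] z = z ^ (Fintype.card F ^ (s * j)) := by
    intro j
    induction j with
    | zero => intro z; simp
    | succ j ih =>
      intro z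
      rw [Function.iterate_succ_apply', ih, hΦ, ← pow_mul, ← pow_add]
      rfl
  have hΦπj : ∀ j z, (⇑Φ)^[j] (π.eval z) = π.eval ((⇑Φ)^[j] z) := by
    intro j
    induction j with
    | zero => intro z; rfl
    | succ j ih =>
      intro z
      rw [Function.iterate_succ_apply, Function.iterate_succ_apply, hΦπ, ih]
  refine ⟨s * p, Nat.mul_pos hs1 hpp.pos, fun n => ?_⟩
  apply csSup_le'
  rintro m ⟨h', hirr, hdvd, rfl⟩
  obtain ⟨x, hx⟩ := IsAlgClosed.exists_aeval_eq_zero K h' (by
    intro h0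
    exact hirr.natDegree_pos.ne' (natDegree_eq_zero_iff_degree_le_zero.2 h0.le))
  obtain ⟨y, hy⟩ := surjK π hπ x
  have hfx : aeval x (f.comp (it g n)) = 0 := by
    obtain ⟨w, hw⟩ := hdvd
    rw [hw, map_mul, hx, zero_mul]
  rw [aeval_comp, aeval_it, ← hy, semiconj g L π c h] at hfx
  have hRy : R.eval ((fun z : K => L.eval z + c)^[n] y) = 0 := by
    rw [hR, eval_comp, eval_map_algebraMap]
    exact hfx
  have h1 := hRr _ hRy
  have h2 : Λ^[n] (Φ y - y) = 0 := by
    rw [← hψ, hψΦ, h1, sub_self]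
  have h3 : (T ^ (n + 1)) y = 0 := by
    rw [pow_succ, Module.End.mul_apply, hTa]
    exact hTn n _ h2
  obtain ⟨k, hk1, hk2⟩ := exists_pow_between p (n + 1) hpp.two_le (by omega)
  have h4 : (T ^ p ^ k) y = 0 := by
    obtain ⟨j, hj⟩ : ∃ j, p ^ k = j + (n + 1) := ⟨p ^ k - (n + 1), by omega⟩
    rw [hj, pow_add, Module.End.mul_apply, h3, map_zero]
  rw [hTp, LinearMap.sub_apply, Module.End.pow_apply, Module.End.one_apply, sub_eq_zero] at h4
  have h5 : (⇑Φ)^[p ^ k] y = y := h4
  have h6 : (⇑Φ)^[p ^ k] x = x := by rw [← hy, hΦπj, h5]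
  rw [hΦj, frob_iff] at h6
  have h7 : h'.natDegree = (minpoly F x).natDegree := by
    have h8 : minpoly F x ∣ h' := minpoly.dvd F x hx
    have h9 := (minpoly.irreducible (Algebra.IsIntegral.isIntegral (R := F) x)).associated_of_dvd hirr h8
    exact (natDegree_eq_of_degree_eq (degree_eq_degree_of_associated h9)).symm
  rw [h7]
  calc (minpoly F x).natDegree ≤ s * p ^ k := Nat.le_of_dvd (Nat.mul_pos hs1 (Nat.pow_pos hpp.pos)) h6
    _ ≤ s * (p * (n + 1)) := Nat.mul_le_mul_left _ hk2
    _ = s * p * (n + 1) := by ring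

theorem lower [Fintype F] [IsAlgClosed K] [Algebra.IsAlgebraic F K] (f g : F[X])
    (hf : 1 ≤ f.natDegree) (hg : 1 ≤ g.natDegree)
    (L π : K[X]) (c : K) (hL : ∀ x y, L.eval (x + y) = L.eval x + L.eval y)
    (hL1 : 1 ≤ L.natDegree) (κ : K) (hκ : κ ≠ 0) (hκL : L.eval κ = 0)
    (hπ : 1 ≤ π.natDegree) (h : (g.map (algebraMap F K)).comp π = π.comp (L + C c)) (n : ℕ) :
    1 ≤ maxDeg f g n ∧ 2 ^ n ≤ π.natDegree * Fintype.card F ^ (maxDeg f g n + 1) := by
  classical
  have hf0 : f ≠ 0 := by
    rintro rfl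
    simp at hf
  obtain ⟨β, hβ⟩ := IsAlgClosed.exists_aeval_eq_zero K f (by
    intro h0
    have := natDegree_eq_zero_iff_degree_le_zero.2 h0.le
    omega)
  obtain ⟨b, hb⟩ := surjK π hπ β
  have hu : ∀ y : K, ∃ u : K, L.eval u + c = y := by
    intro y
    obtain ⟨u, hu⟩ := surjK (L + C c) (by rw [natDegree_add_C]; exact hL1) y
    exact ⟨u, by rw [eval_add, eval_C] at hu; exact hu⟩
  choose u hu using hu
  have huinj : Function.Injective u := by
    intro y y' hyy
    rw [← hu y, ← hu y', hyy]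
  have hY : ∀ n, ∃ Y : Finset K, Y.card = 2 ^ n ∧
      ∀ y ∈ Y, (fun z : K => L.eval z + c)^[n] y = b := by
    intro n
    induction n with
    | zero => exact ⟨{b}, by simp, by simp⟩
    | succ n ih =>
      obtain ⟨Y, hYc, hYb⟩ := ih
      refine ⟨Y.image u ∪ Y.image (fun y => u y + κ), ?_, ?_⟩
      · rw [Finset.card_union_of_disjoint, Finset.card_image_of_injective _ huinj,
          Finset.card_image_of_injective _ (fun y y' hyy => huinj (add_right_cancel hyy)), hYc,
          pow_succ]
        · ring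
        · rw [Finset.disjoint_left]
          intro w hw hw'
          obtain ⟨y, hy, rfl⟩ := Finset.mem_image.1 hw
          obtain ⟨y', hy', hyy⟩ := Finset.mem_image.1 hw'
          have h1 : L.eval (u y' + κ) + c = L.eval (u y) + c := by rw [hyy]
          rw [hL, hκL, add_zero, hu, hu] at h1
          rw [h1] at hyy
          exact hκ (by simpa using hyy)
      · intro w hw
        rw [Function.iterate_succ_apply]
        rcases Finset.mem_union.1 hw with hw | hw
        · obtain ⟨y, hy, rfl⟩ := Finset.mem_image.1 hw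
          rw [hu]
          exact hYb y hy
        · obtain ⟨y, hy, rfl⟩ := Finset.mem_image.1 hw
          rw [hL, hκL, add_zero, hu]
          exact hYb y hy
  obtain ⟨Y, hYc, hYb⟩ := hY n
  have hroot : ∀ y ∈ Y, aeval (π.eval y) (f.comp (it g n)) = 0 := by
    intro y hy
    rw [aeval_comp, aeval_it, semiconj g L π c h, hYb y hy, hb, hβ]
  have hdeg : ∀ y ∈ Y, (minpoly F (π.eval y)).natDegree ≤ maxDeg f g n := fun y hy =>
    le_maxDeg f g hf0 hg n _ (hroot y hy)
  have hpos : ∀ z : K, 1 ≤ (minpoly F z).natDegree := fun z =>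
    minpoly.natDegree_pos (Algebra.IsIntegral.isIntegral (R := F) z)
  have hYne : Y.Nonempty := by
    rw [← Finset.card_pos, hYc]
    positivity
  obtain ⟨y₀, hy₀⟩ := hYne
  refine ⟨(hpos _).trans (hdeg y₀ hy₀), ?_⟩
  have hq : 1 < Fintype.card F := Fintype.one_lt_card
  have h1 : Y.card ≤ π.natDegree * (Y.image (fun y => π.eval y)).card := by
    apply Finset.card_le_mul_card_image
    intro x _
    have h2 : (Y.filter fun y => π.eval y = x) ⊆ (π - C x).roots.toFinset := by
      intro y hy
      rw [Multiset.mem_toFinset, mem_roots, IsRoot.def, eval_sub, eval_C, sub_eq_zero]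
      · exact (Finset.mem_filter.1 hy).2
      · intro h0
        rw [sub_eq_zero] at h0
        rw [h0, natDegree_C] at hπ
        omega
    calc (Y.filter fun y => π.eval y = x).card ≤ (π - C x).roots.toFinset.card :=
          Finset.card_le_card h2
      _ ≤ Multiset.card (π - C x).roots := Multiset.toFinset_card_le _
      _ ≤ (π - C x).natDegree := card_roots' _
      _ = π.natDegree := natDegree_sub_C
  have h3 : Y.image (fun y => π.eval y) ⊆ (Finset.Icc 1 (maxDeg f g n)).biUnion
      fun j => (X ^ Fintype.card F ^ j - X : K[X]).roots.toFinset := by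
    intro x hx
    obtain ⟨y, hy, rfl⟩ := Finset.mem_image.1 hx
    rw [Finset.mem_biUnion]
    refine ⟨(minpoly F (π.eval y)).natDegree, Finset.mem_Icc.2 ⟨hpos _, hdeg y hy⟩, ?_⟩
    rw [Multiset.mem_toFinset, mem_roots (FiniteField.X_pow_card_pow_sub_X_ne_zero K
      (by have := hpos (π.eval y); omega) hq), IsRoot.def, eval_sub, eval_pow, eval_X, sub_eq_zero]
    exact (frob_iff _ _).2 dvd_rfl
  have h4 : (Y.image (fun y => π.eval y)).card ≤ Fintype.card F ^ (maxDeg f g n + 1) := by
    calc (Y.image (fun y => π.eval y)).card ≤ _ := Finset.card_le_card h3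
      _ ≤ ∑ j ∈ Finset.Icc 1 (maxDeg f g n),
          ((X ^ Fintype.card F ^ j - X : K[X]).roots.toFinset).card := Finset.card_biUnion_le
      _ ≤ ∑ j ∈ Finset.Icc 1 (maxDeg f g n), Fintype.card F ^ j := by
          apply Finset.sum_le_sum
          intro j hj
          have hj1 : j ≠ 0 := by
            have := (Finset.mem_Icc.1 hj).1
            omega
          calc ((X ^ Fintype.card F ^ j - X : K[X]).roots.toFinset).card
              ≤ Multiset.card (X ^ Fintype.card F ^ j - X : K[X]).roots :=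
                Multiset.toFinset_card_le _
            _ ≤ (X ^ Fintype.card F ^ j - X : K[X]).natDegree := card_roots' _
            _ = Fintype.card F ^ j := FiniteField.X_pow_card_pow_sub_X_natDegree_eq K hj1 hq
      _ ≤ Fintype.card F ^ (maxDeg f g n + 1) := by
          apply (Nat.geomSum_lt (m := Fintype.card F) (by omega) ?_).le
          intro j hj
          have := (Finset.mem_Icc.1 hj).2
          omega
  rw [hYc] at h1
  exact h1.trans (Nat.mul_le_mul_left _ h4)

end main

/-- **Quotients of affine additive maps.** Let `F` be a finite field, `f, g ∈ F[x]`, `f` nonconstant,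
and suppose that `g(π(x)) = π(L(x) + c)` for nonconstant `π, L` and a constant `c` over the
algebraic closure, `L` additive with a nonzero root.  Then there are `A, B` with
`n ≤ A M_{f,g}(n)` and `M_{f,g}(n) ≤ B n` for all `n ≥ 1`. -/
theorem result {F : Type} [Field F] [Finite F] (f g : F[X]) (hf : 1 ≤ f.natDegree)
    (π L : (AlgebraicClosure F)[X]) (c : AlgebraicClosure F)
    (hπ : 1 ≤ π.natDegree) (hL1 : 1 ≤ L.natDegree)
    (hL : ∀ x y : AlgebraicClosure F, L.eval (x + y) = L.eval x + L.eval y)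
    (hker : ∃ x : AlgebraicClosure F, x ≠ 0 ∧ L.eval x = 0)
    (h : (g.map (algebraMap F (AlgebraicClosure F))).comp π = π.comp (L + C c)) :
    ∃ A B : ℕ, ∀ n : ℕ, 1 ≤ n → n ≤ A * maxDeg f g n ∧ maxDeg f g n ≤ B * n := by
  let _ := Fintype.ofFinite F
  obtain ⟨κ, hκ, hκL⟩ := hker
  have hf0 : f ≠ 0 := by
    rintro rfl
    simp at hf
  have hL0 : L ≠ 0 := by
    rintro rfl
    simp at hL1
  have hg : 1 ≤ g.natDegree := by
    have h1 := congrArg natDegree h
    rw [natDegree_comp, natDegree_comp, natDegree_map, natDegree_add_C] at h1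
    by_contra h2
    have h3 : g.natDegree = 0 := by omega
    rw [h3, zero_mul] at h1
    have h4 : 0 < π.natDegree * L.natDegree := Nat.mul_pos (by omega) (by omega)
    omega
  obtain ⟨B, hB1, hB⟩ := upper f g hf0 L π c hL hL0 hπ h
  have hlow := lower f g hf hg L π c hL hL1 κ hκ hκL hπ h
  refine ⟨π.natDegree + 2 * Fintype.card F, 2 * B, fun n hn => ⟨?_, ?_⟩⟩
  · obtain ⟨h1, h2⟩ := hlow n
    have h3 : π.natDegree < 2 ^ π.natDegree := Nat.lt_two_pow_self
    have h4 : Fintype.card F < 2 ^ Fintype.card F := Nat.lt_two_pow_self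
    have h5 : 2 ^ n ≤ 2 ^ (π.natDegree + Fintype.card F * (maxDeg f g n + 1)) := by
      rw [pow_add, pow_mul]
      exact h2.trans (Nat.mul_le_mul h3.le (Nat.pow_le_pow_left h4.le _))
    have h6 := (Nat.pow_le_pow_iff_right (by norm_num : 1 < 2)).1 h5
    have h7 : π.natDegree ≤ π.natDegree * maxDeg f g n := Nat.le_mul_of_pos_right _ h1
    have h8 : Fintype.card F * 1 ≤ Fintype.card F * maxDeg f g n := Nat.mul_le_mul_left _ h1
    calc n ≤ π.natDegree + Fintype.card F * (maxDeg f g n + 1) := h6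
      _ ≤ (π.natDegree + 2 * Fintype.card F) * maxDeg f g n := by
          rw [add_mul, mul_add, mul_one, mul_assoc, two_mul]
          omega
  · have h1 := hB n
    have h2 : B * (n + 1) ≤ B * (2 * n) := Nat.mul_le_mul_left _ (by omega)
    calc maxDeg f g n ≤ B * (n + 1) := h1
      _ ≤ B * (2 * n) := h2
      _ = 2 * B * n := by ring

end Pool.Agent.Results.MP_b400b0_nt.AdditiveQuotients
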