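import Mathlib

/-!
# MP_b400b0_nt: polynomials conjugate to power maps and Dickson (Chebyshev) polynomials

`F` finite field, `K` its algebraic closure, `f, g ∈ F[x]`, `D = deg g`, and
`g(γ (y + a / y) + α) = γ (y ^ D + a / y ^ D) + α` for all `y ∈ K`, `y ≠ 0`.  If `e ∣ D` is prime to the
characteristic, then `e ^ n ≤ A M_{f,g}(n)`.

Write a root of `f` as `γ (b + a / b) + α`.  There is `y` with `y ^ (D ^ n) = b` whose order is
divisible by `e ^ n`, and `x = γ (y + a / y) + α` is a root of `f(g^{(n)})`.  If `x` has degree `m`,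
then `y` lies in a field of degree `2 s m`, so `e ^ n ∣ q ^ (2 s m) - 1`, which forces
`e ^ n ∣ C m`.
-/

set_option autoImplicit false

namespace Pool.Agent.Results.MP_b400b0_nt.PowerQuotients

open Polynomial

/-- `g^{(n)}`: `g^{(0)} = x`, `g^{(n+1)} = g(g^{(n)}(x))`. -/
noncomputable def it {F : Type} [Field F] (g : F[X]) (n : ℕ) : F[X] := (g.comp)^[n] X

/-- `M_{f,g}(n)`: the largest degree of an irreducible factor of `f(g^{(n)}(x))` over `F`. -/
noncomputable def maxDeg {F : Type} [Field F] (f g : F[X]) (n : ℕ) : ℕ :=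
  sSup {m | ∃ h : F[X], Irreducible h ∧ h ∣ f.comp (it g n) ∧ h.natDegree = m}

section lte

/-- an upper bound for the `ℓ`-adic valuation of `q ^ L - 1` -/
theorem lte (ℓ q : ℕ) (hℓ : ℓ.Prime) (hq : 2 ≤ q) (hnd : ¬ ℓ ∣ q) :
    ∃ c : ℕ, ∀ L : ℕ, 1 ≤ L → padicValNat ℓ (q ^ L - 1) ≤ c + padicValNat ℓ L := by
  have : Fact ℓ.Prime := ⟨hℓ⟩
  have hmono : ∀ a b : ℕ, b ≠ 0 → a ∣ b → padicValNat ℓ a ≤ padicValNat ℓ b := by
    intro a b hb hab
    obtain ⟨c, rfl⟩ := hab
    have ha : a ≠ 0 := left_ne_zero_of_mul hb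
    have hc : c ≠ 0 := right_ne_zero_of_mul hb
    rw [padicValNat.mul ha hc]
    omega
  rcases hℓ.eq_two_or_odd' with h2 | hodd
  · subst h2
    refine ⟨padicValNat 2 (q + 1) + padicValNat 2 (q - 1), fun L hL => ?_⟩
    have hqo : ¬ 2 ∣ q := hnd
    have h1 := padicValNat.pow_two_sub_pow (x := q) (y := 1) (by omega) (by omega) hqo
      (n := 2 * L) (by omega) ⟨L, by ring⟩
    rw [one_pow, padicValNat.mul (by norm_num) (by omega)] at h1
    have h3 : padicValNat 2 2 = 1 := padicValNat.self (by norm_num)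
    rw [h3] at h1
    have h2 : padicValNat 2 (q ^ L - 1) ≤ padicValNat 2 (q ^ (2 * L) - 1) := by
      apply hmono
      · have : 1 < q ^ (2 * L) := Nat.one_lt_pow (by omega) (by omega)
        omega
      · have := Nat.sub_dvd_pow_sub_pow (q ^ L) 1 2
        rwa [one_pow, ← pow_mul, mul_comm L 2] at this
    omega
  · have hℓ1 : 1 < ℓ := hℓ.one_lt
    have hℓ2 : ℓ ≠ 2 := by rintro rfl; exact absurd hodd (by decide)
    have hx : ¬ ℓ ∣ q ^ (ℓ - 1) := fun h => hnd (hℓ.dvd_of_dvd_pow h)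
    have hfer : ℓ ∣ q ^ (ℓ - 1) - 1 := by
      have h1 : ((q : ZMod ℓ)) ≠ 0 := by
        rw [Ne, ZMod.natCast_eq_zero_iff]
        exact hnd
      have h2 := ZMod.pow_card_sub_one_eq_one h1
      rw [← ZMod.natCast_eq_zero_iff, Nat.cast_sub (Nat.one_le_pow _ _ (by omega))]
      push_cast
      rw [h2, sub_self]
    have hgt : 1 < q ^ (ℓ - 1) := Nat.one_lt_pow (by omega) (by omega)
    refine ⟨padicValNat ℓ (q ^ (ℓ - 1) - 1), fun L hL => ?_⟩
    have h1 := padicValNat.pow_sub_pow (p := ℓ) (hp1 := hodd) (x := q ^ (ℓ - 1)) (y := 1) hgt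
      hfer hx (n := L) (by omega)
    rw [one_pow] at h1
    rw [← h1]
    apply hmono
    · have : 1 < (q ^ (ℓ - 1)) ^ L := Nat.one_lt_pow (by omega) hgt
      omega
    · have := Nat.sub_dvd_pow_sub_pow (q ^ L) 1 (ℓ - 1)
      rwa [one_pow, ← pow_mul, mul_comm L, pow_mul] at this

end lte

theorem arith (e q : ℕ) (hq : 2 ≤ q) (he : e ≠ 0) (hcop : ∀ ℓ, ℓ.Prime → ℓ ∣ e → ¬ ℓ ∣ q) :
    ∃ C : ℕ, 1 ≤ C ∧ ∀ n L : ℕ, 1 ≤ L → e ^ n ∣ q ^ L - 1 → e ^ n ∣ C * L := by
  have h1 : ∀ ℓ : ℕ, ∃ c : ℕ, ℓ.Prime → ℓ ∣ e →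
      ∀ L : ℕ, 1 ≤ L → padicValNat ℓ (q ^ L - 1) ≤ c + padicValNat ℓ L := by
    intro ℓ
    by_cases h : ℓ.Prime ∧ ℓ ∣ e
    · obtain ⟨c, hc⟩ := lte ℓ q h.1 hq (hcop ℓ h.1 h.2)
      exact ⟨c, fun _ _ => hc⟩
    · exact ⟨0, fun h1 h2 => absurd ⟨h1, h2⟩ h⟩
  choose c hc using h1
  have hC : 1 ≤ ∏ ℓ ∈ e.primeFactors, ℓ ^ c ℓ :=
    Finset.prod_pos fun ℓ hℓ => Nat.pow_pos (Nat.prime_of_mem_primeFactors hℓ).pos
  refine ⟨∏ ℓ ∈ e.primeFactors, ℓ ^ c ℓ, hC, fun n L hL hdvd => ?_⟩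
  have hqL : q ^ L - 1 ≠ 0 := by
    have : 1 < q ^ L := Nat.one_lt_pow (by omega) (by omega)
    omega
  rw [← Nat.factorization_prime_le_iff_dvd (pow_ne_zero _ he) (Nat.mul_ne_zero (by omega) (by omega))]
  intro ℓ hℓ
  have hℓf : Fact ℓ.Prime := ⟨hℓ⟩
  by_cases hℓe : ℓ ∣ e
  · have h2 : (e ^ n).factorization ℓ ≤ (q ^ L - 1).factorization ℓ :=
      (Nat.factorization_le_iff_dvd (pow_ne_zero _ he) hqL).2 hdvd ℓ
    have h3 := hc ℓ hℓ hℓe L hL
    have h4 : ℓ ^ c ℓ ∣ ∏ ℓ ∈ e.primeFactors, ℓ ^ c ℓ :=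
      Finset.dvd_prod_of_mem (fun ℓ => ℓ ^ c ℓ) (Nat.mem_primeFactors.2 ⟨hℓ, hℓe, he⟩)
    have h5 := (hℓ.pow_dvd_iff_le_factorization (by omega)).1 h4
    rw [Nat.factorization_mul (by omega) (by omega), Finsupp.add_apply]
    rw [Nat.factorization_def _ hℓ] at h2
    rw [Nat.factorization_def _ hℓ] at h2
    rw [Nat.factorization_def _ hℓ, Nat.factorization_def L hℓ]
    omega
  · have h2 : (e ^ n).factorization ℓ = 0 := by
      apply Nat.factorization_eq_zero_of_not_dvd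
      intro h
      exact hℓe (hℓ.dvd_of_dvd_pow h)
    rw [h2]
    exact Nat.zero_le _


variable {F : Type} [Field F]

theorem it_succ (g : F[X]) (n : ℕ) : it g (n + 1) = g.comp (it g n) := by
  unfold it
  rw [Function.iterate_succ_apply']

theorem natDegree_it (g : F[X]) (n : ℕ) : (it g n).natDegree = g.natDegree ^ n := by
  unfold it
  rw [natDegree_iterate_comp, natDegree_X, mul_one]

section K

variable {K : Type} [Field K] [Algebra F K]

theorem aeval_it (g : F[X]) (n : ℕ) (x : K) :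
    aeval x (it g n) = (fun y : K => aeval y g)^[n] x := by
  induction n with
  | zero => simp [it]
  | succ n ih => rw [it_succ, aeval_comp, ih, Function.iterate_succ_apply']

theorem comp_ne_zero (f g : F[X]) (hf : f ≠ 0) (hg : 1 ≤ g.natDegree) (n : ℕ) :
    f.comp (it g n) ≠ 0 := by
  intro h
  rw [comp_eq_zero_iff] at h
  rcases h with h | ⟨-, h⟩
  · exact hf h
  · have h1 := natDegree_it g n
    rw [h, natDegree_C] at h1
    have : 0 < g.natDegree ^ n := Nat.pow_pos (by omega)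
    omega

theorem le_maxDeg (f g : F[X]) (hf : f ≠ 0) (hg : 1 ≤ g.natDegree) (n : ℕ) (z : K)
    (hz : aeval z (f.comp (it g n)) = 0) : (minpoly F z).natDegree ≤ maxDeg f g n := by
  have hP := comp_ne_zero f g hf hg n
  have hint : IsIntegral F z := isAlgebraic_iff_isIntegral.1 ⟨_, hP, hz⟩
  refine le_csSup ⟨(f.comp (it g n)).natDegree, ?_⟩
    ⟨minpoly F z, minpoly.irreducible hint, minpoly.dvd F z hz, rfl⟩
  rintro m ⟨h, -, hd, rfl⟩
  exact natDegree_le_of_dvd hd hP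

end K

section Frob

variable [Fintype F] {K : Type} [Field K] [Algebra F K]

theorem frob_pow (n : ℕ) (z : K) :
    (FiniteField.frobeniusAlgHom F K ^ n) z = z ^ (Fintype.card F ^ n) := by
  rw [AlgHom.coe_pow, FiniteField.coe_frobeniusAlgHom, pow_iterate]

theorem frob_iff [Algebra.IsAlgebraic F K] (z : K) (m : ℕ) :
    z ^ (Fintype.card F ^ m) = z ↔ (minpoly F z).natDegree ∣ m := by
  have hz : IsIntegral F z := Algebra.IsIntegral.isIntegral z
  rw [(minpoly.irreducible hz).natDegree_dvd_iff_dvd_X_pow_card_pow_sub_X, minpoly.dvd_iff,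
    Nat.card_eq_fintype_card, map_sub, map_pow, aeval_X, sub_eq_zero]

theorem exists_s [Algebra.IsAlgebraic F K] (S : Finset K) :
    ∃ s : ℕ, 1 ≤ s ∧ ∀ z ∈ S, z ^ (Fintype.card F ^ s) = z := by
  refine ⟨∏ z ∈ S, (minpoly F z).natDegree, ?_, fun z hz => (frob_iff z _).2
    (Finset.dvd_prod_of_mem _ hz)⟩
  exact Finset.prod_pos fun z _ => minpoly.natDegree_pos (Algebra.IsIntegral.isIntegral (R := F) z)

end Frob

section roots

variable {K : Type} [Field K] [IsAlgClosed K]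

theorem exists_y (b : K) (hb : 0 < orderOf b) (N R : ℕ) (hN : (N : K) ≠ 0) (hR : 1 ≤ R) :
    ∃ y : K, y ^ (N * R) = b ∧ N ∣ orderOf y := by
  obtain ⟨o, ho⟩ : ∃ o, o = orderOf b := ⟨_, rfl⟩
  have hprim : IsPrimitiveRoot b o := by
    rw [ho]
    exact IsPrimitiveRoot.orderOf b
  have ho0 : NeZero o := ⟨by omega⟩
  have hoK : NeZero ((o : ℕ) : K) := hprim.neZero'
  have hN0 : N ≠ 0 := by
    rintro rfl
    simp at hN
  have hoN : NeZero (((o * N : ℕ)) : K) := ⟨by
    rw [Nat.cast_mul]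
    exact mul_ne_zero hoK.out hN⟩
  have hoN' : NeZero (o * N) := ⟨Nat.mul_ne_zero ho0.out hN0⟩
  obtain ⟨ζ, hζ⟩ := HasEnoughRootsOfUnity.exists_primitiveRoot K (o * N)
  have h1 : IsPrimitiveRoot (ζ ^ N) o := hζ.pow (Nat.pos_of_ne_zero hoN'.out) (mul_comm o N)
  obtain ⟨i, -, hi, hib⟩ := h1.isPrimitiveRoot_iff.1 hprim
  obtain ⟨v, hv⟩ := ZMod.unitsMap_surjective (Dvd.intro N rfl : o ∣ o * N) (ZMod.unitOfCoprime i hi)
  have h2 : (((v : ZMod (o * N)).val : ℕ) : ZMod o) = (i : ZMod o) := by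
    have h3 := congrArg (Units.val) hv
    rw [ZMod.unitsMap_val, ZMod.coe_unitOfCoprime] at h3
    rw [← h3, ZMod.natCast_val]
  have h4 : (v : ZMod (o * N)).val % o = i % o := (ZMod.natCast_eq_natCast_iff' _ _ _).1 h2
  obtain ⟨j, hj⟩ : ∃ j, j = (v : ZMod (o * N)).val := ⟨_, rfl⟩
  have hjc : j.Coprime (o * N) := by
    rw [hj]
    exact ZMod.val_coe_unit_coprime v
  have h5 := hζ.pow_of_coprime j hjc
  obtain ⟨y, hy⟩ := IsAlgClosed.exists_pow_nat_eq (ζ ^ j) (n := R) (by omega)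
  refine ⟨y, ?_, ?_⟩
  · rw [mul_comm, pow_mul, hy, ← pow_mul, mul_comm, pow_mul, pow_eq_pow_mod j h1.pow_eq_one, hj, h4,
      ← pow_eq_pow_mod i h1.pow_eq_one, hib]
  · have h6 : orderOf (ζ ^ j) = o * N := h5.eq_orderOf.symm
    have h7 : orderOf (ζ ^ j) ∣ orderOf y := by
      rw [← hy]
      exact orderOf_pow_dvd R
    rw [h6] at h7
    exact (Dvd.intro_left o rfl).trans h7

end roots

section main

variable {K : Type} [Field K] [Algebra F K]

theorem surjK [IsAlgClosed K] (P : K[X]) (hP : 1 ≤ P.natDegree) (y : K) :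
    ∃ x : K, P.eval x = y := by
  have h1 : (P - C y).degree ≠ 0 := by
    intro h
    have h2 := natDegree_eq_zero_iff_degree_le_zero.2 h.le
    rw [natDegree_sub_C] at h2
    omega
  obtain ⟨x, hx⟩ := IsAlgClosed.exists_root _ h1
  refine ⟨x, ?_⟩
  rw [IsRoot.def, eval_sub, eval_C, sub_eq_zero] at hx
  exact hx

theorem semiconj (g : F[X]) (γ α a : K)
    (h : ∀ y : K, y ≠ 0 → aeval (γ * (y + a / y) + α) g =
      γ * (y ^ g.natDegree + a / y ^ g.natDegree) + α) (n : ℕ) (y : K) (hy : y ≠ 0) :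
    (fun y : K => aeval y g)^[n] (γ * (y + a / y) + α) =
      γ * (y ^ (g.natDegree ^ n) + a / y ^ (g.natDegree ^ n)) + α := by
  induction n generalizing y with
  | zero => simp
  | succ n ih =>
    rw [Function.iterate_succ_apply, h y hy, ih _ (pow_ne_zero _ hy), ← pow_mul, pow_succ',]

theorem key [Fintype F] [IsAlgClosed K] [Algebra.IsAlgebraic F K] (f g : F[X]) (hf : f ≠ 0)
    (hg : 1 ≤ g.natDegree) (γ α a b : K) (hγ : γ ≠ 0) (hb : b ≠ 0)
    (h : ∀ y : K, y ≠ 0 → aeval (γ * (y + a / y) + α) g =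
      γ * (y ^ g.natDegree + a / y ^ g.natDegree) + α)
    (hβ : aeval (γ * (b + a / b) + α) f = 0) (e : ℕ) (he : e ∣ g.natDegree) (hep : (e : F) ≠ 0) :
    ∃ A : ℕ, ∀ n : ℕ, e ^ n ≤ A * maxDeg f g n := by
  classical
  have hq : 1 < Fintype.card F := Fintype.one_lt_card
  have he0 : e ≠ 0 := by
    rintro rfl
    simp at hep
  have heK : (e : K) ≠ 0 := by
    intro h0
    apply hep
    apply (algebraMap F K).injective
    rw [map_natCast, map_zero]
    exact h0
  have hcop : ∀ ℓ, ℓ.Prime → ℓ ∣ e → ¬ ℓ ∣ Fintype.card F := by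
    intro ℓ hℓ hℓe hℓq
    obtain ⟨p, hp⟩ := CharP.exists F
    obtain ⟨k, hpp, hk⟩ := FiniteField.card F p
    rw [hk] at hℓq
    have h1 := hℓ.dvd_of_dvd_pow hℓq
    rw [Nat.prime_dvd_prime_iff_eq hℓ hpp] at h1
    subst h1
    apply hep
    rw [CharP.cast_eq_zero_iff F ℓ]
    exact hℓe
  obtain ⟨C, hC1, hC⟩ := arith e (Fintype.card F) hq he0 hcop
  obtain ⟨s, hs1, hs⟩ := exists_s (F := F) ({γ, α, a, b} : Finset K)
  have hsd : ∀ z ∈ ({γ, α, a, b} : Finset K), (minpoly F z).natDegree ∣ s := fun z hz =>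
    (frob_iff z s).1 (hs z hz)
  have hbo : 0 < orderOf b := by
    rw [orderOf_pos_iff, isOfFinOrder_iff_pow_eq_one]
    refine ⟨Fintype.card F ^ s - 1, ?_, ?_⟩
    · have : 1 < Fintype.card F ^ s := Nat.one_lt_pow (by omega) hq
      omega
    · have h1 := hs b (by simp)
      have h2 : 1 ≤ Fintype.card F ^ s := Nat.one_le_pow _ _ (by omega)
      have h3 : b ^ (Fintype.card F ^ s - 1) * b = 1 * b := by
        rw [← pow_succ, Nat.sub_add_cancel h2, one_mul]
        exact h1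
      exact mul_right_cancel₀ hb h3
  refine ⟨C * (s * 2), fun n => ?_⟩
  obtain ⟨R, hR⟩ := he
  have hR1 : 1 ≤ R ^ n := by
    apply Nat.one_le_pow
    rcases Nat.eq_zero_or_pos R with h0 | h0
    · rw [h0, mul_zero] at hR
      omega
    · exact h0
  obtain ⟨y, hy, hyo⟩ := exists_y b hbo (e ^ n) (R ^ n) (by
    rw [Nat.cast_pow]
    exact pow_ne_zero _ heK) hR1
  rw [← mul_pow, ← hR] at hy
  have hy0 : y ≠ 0 := by
    rintro rfl
    rw [zero_pow (pow_ne_zero _ (by omega))] at hy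
    exact hb hy.symm
  obtain ⟨x, hx⟩ : ∃ x, x = γ * (y + a / y) + α := ⟨_, rfl⟩
  have hroot : aeval x (f.comp (it g n)) = 0 := by
    rw [aeval_comp, aeval_it, hx, semiconj g γ α a h n y hy0, hy]
    exact hβ
  have hm := le_maxDeg f g hf hg n x hroot
  obtain ⟨m, hmd⟩ : ∃ m, m = (minpoly F x).natDegree := ⟨_, rfl⟩
  rw [← hmd] at hm
  have hm1 : 1 ≤ m := by
    rw [hmd]
    exact minpoly.natDegree_pos (Algebra.IsIntegral.isIntegral (R := F) x)
  obtain ⟨Φ, hΦ⟩ : ∃ Φ : K →ₐ[F] K, ∀ z, Φ z = z ^ (Fintype.card F ^ (s * m)) :=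
    ⟨FiniteField.frobeniusAlgHom F K ^ (s * m), frob_pow (s * m)⟩
  have hΦs : ∀ z ∈ ({γ, α, a, b} : Finset K), Φ z = z := fun z hz => by
    rw [hΦ]
    exact (frob_iff z _).2 ((hsd z hz).mul_right m)
  have hΦx : Φ x = x := by
    rw [hΦ]
    exact (frob_iff x _).2 (by rw [← hmd]; exact Dvd.intro_left s rfl)
  have hΦγ := hΦs γ (by simp)
  have hΦα := hΦs α (by simp)
  have hΦa := hΦs a (by simp)
  have hΦy0 : Φ y ≠ 0 := by
    rw [Ne, map_eq_zero]
    exact hy0
  have h1 : Φ y + a / Φ y = y + a / y := by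
    have h2 : γ * (Φ y + a / Φ y) + α = γ * (y + a / y) + α := by
      rw [← hx, ← hΦx, hx, map_add, map_mul, map_add, map_div₀, hΦγ, hΦα, hΦa]
    exact mul_left_cancel₀ hγ (add_right_cancel h2)
  have h2 : (Φ y - y) * (Φ y * y - a) = 0 := by
    field_simp at h1
    linear_combination h1
  have h3 : Φ (Φ y) = y := by
    rcases mul_eq_zero.1 h2 with h3 | h3
    · have h4 : Φ y = y := sub_eq_zero.1 h3
      rw [h4, h4]
    · have h4 : Φ y * y = a := sub_eq_zero.1 h3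
      have h5 := congrArg Φ h4
      rw [map_mul, hΦa, ← h4, mul_comm] at h5
      exact mul_left_cancel₀ hΦy0 h5
  rw [hΦ, hΦ, ← pow_mul, ← pow_add] at h3
  have hL : 1 ≤ s * m + s * m := by
    have : 1 ≤ s * m := Nat.mul_pos hs1 hm1
    omega
  have h4 : y ^ (Fintype.card F ^ (s * m + s * m) - 1) = 1 := by
    have h5 : 1 ≤ Fintype.card F ^ (s * m + s * m) := Nat.one_le_pow _ _ (by omega)
    have h6 : y ^ (Fintype.card F ^ (s * m + s * m) - 1) * y = 1 * y := by
      rw [← pow_succ, Nat.sub_add_cancel h5, one_mul]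
      exact h3
    exact mul_right_cancel₀ hy0 h6
  have h5 := hC n (s * m + s * m) hL (hyo.trans (orderOf_dvd_of_pow_eq_one h4))
  calc e ^ n ≤ C * (s * m + s * m) := Nat.le_of_dvd (Nat.mul_pos hC1 hL) h5
    _ = C * (s * 2) * m := by ring
    _ ≤ C * (s * 2) * maxDeg f g n := Nat.mul_le_mul_left _ hm

/-- `(f, g)` is critical if `f = b (x - a) ^ k` and `g = c (x - a) ^ D + a` for some
`a, b, c ∈ F`, `k = deg f`, `D = deg g`. -/
def Critical (f g : F[X]) : Prop :=
  ∃ a b c : F, f = C b * (X - C a) ^ f.natDegree ∧ g = C c * (X - C a) ^ g.natDegree + C a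

/-- `g` is `p`-critical if `g = a x ^ (p ^ h) + b`, `p` the characteristic of `F`. -/
def PCritical (g : F[X]) : Prop :=
  ∃ a b : F, ∃ h : ℕ, g = C a * X ^ (ringChar F ^ h) + C b

theorem polyEq [IsAlgClosed K] (g : F[X]) (γ α : K) (D : ℕ)
    (hx : ∀ x : K, x ≠ α → aeval x g = γ * ((x - α) / γ) ^ D + α) :
    g.map (algebraMap F K) = C (γ * γ⁻¹ ^ D) * (X - C α) ^ D + C α := by
  apply Polynomial.eq_of_infinite_eval_eq
  apply Set.Infinite.mono (s := {α}ᶜ)
  · intro x hx'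
    rw [Set.mem_ofPred_eq, eval_map_algebraMap, hx x hx', eval_add, eval_mul, eval_C, eval_pow,
      eval_sub, eval_X, eval_C, div_eq_mul_inv, mul_pow]
    ring
  · exact (Set.finite_singleton α).infinite_compl

theorem exists_b [IsAlgClosed K] (t a : K) (h : a ≠ 0 ∨ t ≠ 0) : ∃ b : K, b ≠ 0 ∧ b + a / b = t := by
  by_cases ha : a = 0
  · subst ha
    exact ⟨t, by tauto, by simp⟩
  · obtain ⟨b, hb⟩ := surjK (X ^ 2 - C t * X + C a) (by
      have : (X ^ 2 - C t * X + C a : K[X]).natDegree = 2 := by compute_degree!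
      omega) (0 : K)
    simp only [eval_add, eval_sub, eval_pow, eval_X, eval_mul, eval_C] at hb
    have hb0 : b ≠ 0 := by
      rintro rfl
      apply ha
      simpa using hb
    refine ⟨b, hb0, ?_⟩
    field_simp
    linear_combination hb

theorem crit [Fintype F] [IsAlgClosed K] [Algebra.IsAlgebraic F K] (f g : F[X]) (hf : Irreducible f)
    (hg : 1 ≤ g.natDegree) (γ α : K)
    (hx : ∀ x : K, x ≠ α → aeval x g = γ * ((x - α) / γ) ^ g.natDegree + α)
    (hall : ∀ β : K, aeval β f = 0 → β = α) : Critical f g := by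
  obtain ⟨β, hβ⟩ := IsAlgClosed.exists_aeval_eq_zero K f (by
    intro h0
    exact hf.natDegree_pos.ne' (natDegree_eq_zero_iff_degree_le_zero.2 h0.le))
  have hβα := hall β hβ
  subst hβα
  have h1 : (FiniteField.frobeniusAlgHom F K ^ 1) β = β := by
    apply hall
    rw [aeval_algHom_apply, hβ, map_zero]
  rw [frob_pow, frob_iff, Nat.dvd_one] at h1
  have hint : IsIntegral F β := Algebra.IsIntegral.isIntegral β
  obtain ⟨α₀, hα₀⟩ := minpoly.mem_range_of_degree_eq_one F β (by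
    rw [degree_eq_natDegree (minpoly.ne_zero hint), h1]
    rfl)
  have hα₀' : algebraMap F K α₀ = β := hα₀
  have hroot : f.IsRoot α₀ := by
    rw [← hα₀', aeval_algebraMap_apply] at hβ
    exact (algebraMap F K).injective (by rw [map_zero]; exact hβ)
  obtain ⟨w, hw⟩ := dvd_iff_isRoot.2 hroot
  have hwu : IsUnit w := (hf.isUnit_or_isUnit hw).resolve_left (not_isUnit_X_sub_C α₀)
  obtain ⟨b, hb, hbw⟩ := isUnit_iff.1 hwu
  refine ⟨α₀, b, g.leadingCoeff, ?_, ?_⟩
  · have h2 : f = C b * (X - C α₀) := by rw [hw, ← hbw, mul_comm]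
    have h3 : f.natDegree = 1 := by
      rw [h2, natDegree_C_mul hb.ne_zero, natDegree_X_sub_C]
    rw [h3, pow_one]
    exact h2
  · have h2 := polyEq g γ β g.natDegree hx
    have h3 : algebraMap F K g.leadingCoeff = γ * γ⁻¹ ^ g.natDegree := by
      have h4 := congrArg (fun P : K[X] => P.coeff g.natDegree) h2
      rw [coeff_map, coeff_add, coeff_C_mul, coeff_C, if_neg (by omega), add_zero] at h4
      have h5 : ((X - C β : K[X]) ^ g.natDegree).coeff g.natDegree = 1 := by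
        have h6 : ((X - C β : K[X]) ^ g.natDegree).natDegree = g.natDegree := by
          rw [natDegree_pow, natDegree_X_sub_C, mul_one]
        have h7 := ((monic_X_sub_C β).pow g.natDegree).coeff_natDegree
        rw [h6] at h7
        exact h7
      rw [h5, mul_one] at h4
      exact h4
    apply map_injective (algebraMap F K) (algebraMap F K).injective
    rw [h2]
    simp only [Polynomial.map_add, Polynomial.map_mul, Polynomial.map_pow, Polynomial.map_sub,
      map_C, map_X]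
    rw [h3, hα₀']

theorem pcrit [Fintype F] [IsAlgClosed K] (g : F[X]) (γ α a : K) (hγ : γ ≠ 0)
    (hg : 1 ≤ g.natDegree)
    (h : ∀ y : K, y ≠ 0 → aeval (γ * (y + a / y) + α) g =
      γ * (y ^ g.natDegree + a / y ^ g.natDegree) + α)
    (hp : ∀ ℓ : ℕ, ℓ.Prime → ℓ ∣ g.natDegree → (ℓ : F) = 0) : PCritical g := by
  classical
  obtain ⟨p, hpF⟩ := CharP.exists F
  have hpp : p.Prime := CharP.char_is_prime F p
  have : Fact p.Prime := ⟨hpp⟩
  have hpK : CharP K p := charP_of_injective_algebraMap (algebraMap F K).injective p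
  obtain ⟨k, hk⟩ : ∃ k, g.natDegree = p ^ k := ⟨_, Nat.eq_prime_pow_of_unique_prime_dvd (by omega)
    (fun {d} hd hdg => by
      have h1 := hp d hd hdg
      rw [CharP.cast_eq_zero_iff F p] at h1
      exact ((Nat.prime_dvd_prime_iff_eq hpp hd).1 h1).symm)⟩
  obtain ⟨D, hD⟩ : ∃ D, D = g.natDegree := ⟨_, rfl⟩
  rw [← hD] at h hg hk
  have haD : a ^ D = a := by
    by_cases ha : a = 0
    · rw [ha, zero_pow (by omega)]
    · obtain ⟨y, hy⟩ := Infinite.exists_notMem_finset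
        (insert 0 (X ^ (2 * D) - C (a ^ D) : K[X]).roots.toFinset)
      rw [Finset.mem_insert, not_or] at hy
      obtain ⟨hy0, hy1⟩ := hy
      have hne : (X ^ (2 * D) - C (a ^ D) : K[X]) ≠ 0 := X_pow_sub_C_ne_zero (by omega) _
      have hy2 : (y ^ D) ^ 2 ≠ a ^ D := by
        intro h1
        apply hy1
        rw [Multiset.mem_toFinset, mem_roots hne, IsRoot.def, eval_sub, eval_pow, eval_X, eval_C,
          sub_eq_zero, ← h1, ← pow_mul, mul_comm]
      have h1 := h y hy0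
      have h2 := h (a / y) (div_ne_zero ha hy0)
      rw [show a / (a / y) = y by field_simp, add_comm (a / y) y, h1, div_pow] at h2
      have h3 := mul_left_cancel₀ hγ (add_right_cancel h2)
      have hw0 : y ^ D ≠ 0 := pow_ne_zero _ hy0
      have ht0 : a ^ D ≠ 0 := pow_ne_zero _ ha
      obtain ⟨w, hw⟩ : ∃ w, w = y ^ D := ⟨_, rfl⟩
      obtain ⟨t, ht⟩ : ∃ t, t = a ^ D := ⟨_, rfl⟩
      rw [← hw, ← ht] at h3 hy2
      rw [← hw] at hw0
      rw [← ht] at ht0
      rw [← ht]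
      field_simp at h3
      have h4 : (t - a) * (w ^ 2 - t) = 0 := by linear_combination h3
      rcases mul_eq_zero.1 h4 with h5 | h5
      · exact sub_eq_zero.1 h5
      · exact absurd (sub_eq_zero.1 h5) hy2
  have hx : ∀ x : K, x ≠ α → aeval x g = γ * ((x - α) / γ) ^ D + α := by
    intro x hxα
    obtain ⟨y, hy0, hy⟩ := exists_b ((x - α) / γ) a (Or.inr (div_ne_zero (sub_ne_zero.2 hxα) hγ))
    have h1 := h y hy0
    rw [hy] at h1
    have h2 : γ * ((x - α) / γ) + α = x := by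
      field_simp
      ring
    rw [h2] at h1
    rw [h1, ← hy]
    have h3 : (y + a / y) ^ D = y ^ D + (a / y) ^ D := by
      rw [hk]
      exact add_pow_char_pow ..
    rw [h3, div_pow, haD]
  have h2 := polyEq g γ α D hx
  have h3 : (X - C α : K[X]) ^ D = X ^ D - C (α ^ D) := by
    rw [hk, sub_pow_char_pow, C_pow]
  rw [h3] at h2
  refine ⟨g.coeff D, g.coeff 0, k, ?_⟩
  rw [ringChar.eq F p, ← hk]
  ext i
  rw [coeff_add, coeff_C_mul, coeff_X_pow, coeff_C]
  by_cases hiD : i = D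
  · subst hiD
    rw [if_pos rfl, if_neg (by omega)]
    ring
  · by_cases hi0 : i = 0
    · subst hi0
      rw [if_neg hiD, if_pos rfl]
      ring
    · rw [if_neg hiD, if_neg hi0, mul_zero, add_zero]
      have h4 := congrArg (fun P : K[X] => P.coeff i) h2
      rw [coeff_map, coeff_add, coeff_C_mul, coeff_sub, coeff_X_pow, coeff_C, coeff_C, if_neg hiD,
        if_neg hi0, if_neg hi0, sub_zero, mul_zero, add_zero] at h4
      exact (algebraMap F K).injective (by rw [h4, map_zero])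

end main

/-- **Power maps and Dickson polynomials.** Let `F` be a finite field, `f ∈ F[x]` irreducible,
`g ∈ F[x]` of degree `D ≥ 2`, `(f, g)` neither critical nor `p`-critical, and suppose that
`g(γ (y + a / y) + α) = γ (y ^ D + a / y ^ D) + α` for all `y ≠ 0` in the algebraic closure,
for some `γ ≠ 0, α, a` there.  Then for each `e ∣ D` prime to the characteristic there is `A` with
`e ^ n ≤ A M_{f,g}(n)` for all `n`, and `n ≪ log M_{f,g}(n)`. -/
theorem result {F : Type} [Field F] [Finite F] (f g : F[X]) (hf : Irreducible f)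
    (hg : 2 ≤ g.natDegree) (hnc : ¬ Critical f g) (hnp : ¬ PCritical g)
    (γ α a : AlgebraicClosure F) (hγ : γ ≠ 0)
    (h : ∀ y : AlgebraicClosure F, y ≠ 0 → aeval (γ * (y + a / y) + α) g =
      γ * (y ^ g.natDegree + a / y ^ g.natDegree) + α) :
    (∀ e : ℕ, e ∣ g.natDegree → (e : F) ≠ 0 → ∃ A : ℕ, ∀ n : ℕ, e ^ n ≤ A * maxDeg f g n) ∧
    ∃ c : ℝ, 0 < c ∧ ∃ n₀ : ℕ, ∀ n : ℕ, n₀ ≤ n → (n : ℝ) ≤ c * Real.log (maxDeg f g n) := by
  let _ := Fintype.ofFinite F
  have hg1 : 1 ≤ g.natDegree := by omega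
  obtain ⟨β, hβ, hβ'⟩ : ∃ β : AlgebraicClosure F, aeval β f = 0 ∧ (a ≠ 0 ∨ β ≠ α) := by
    by_cases ha : a = 0
    · by_contra hcon
      push Not at hcon
      apply hnc
      refine crit f g hf hg1 γ α ?_ (fun β hβ => (hcon β hβ).2)
      intro x hx
      have h1 := h ((x - α) / γ) (div_ne_zero (sub_ne_zero.2 hx) hγ)
      rw [ha, zero_div, add_zero, zero_div, add_zero] at h1
      have h2 : γ * ((x - α) / γ) + α = x := by
        field_simp
        ring
      rw [h2] at h1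
      exact h1
    · obtain ⟨β, hβ⟩ := IsAlgClosed.exists_aeval_eq_zero (AlgebraicClosure F) f (by
        intro h0
        exact hf.natDegree_pos.ne' (natDegree_eq_zero_iff_degree_le_zero.2 h0.le))
      exact ⟨β, hβ, Or.inl ha⟩
  obtain ⟨b, hb, hbt⟩ := exists_b ((β - α) / γ) a (by
    rcases hβ' with h1 | h1
    · exact Or.inl h1
    · exact Or.inr (div_ne_zero (sub_ne_zero.2 h1) hγ))
  have hβb : γ * (b + a / b) + α = β := by
    rw [hbt]
    field_simp
    ring
  have hkey : ∀ e : ℕ, e ∣ g.natDegree → (e : F) ≠ 0 → ∃ A : ℕ, ∀ n : ℕ,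
      e ^ n ≤ A * maxDeg f g n := fun e he hep =>
    key f g hf.ne_zero hg1 γ α a b hγ hb h (by rw [hβb]; exact hβ) e he hep
  refine ⟨hkey, ?_⟩
  obtain ⟨ℓ, hℓ, hℓD, hℓF⟩ : ∃ ℓ : ℕ, ℓ.Prime ∧ ℓ ∣ g.natDegree ∧ (ℓ : F) ≠ 0 := by
    by_contra hcon
    push Not at hcon
    exact hnp (pcrit g γ α a hγ hg1 h hcon)
  obtain ⟨A, hA⟩ := hkey ℓ hℓD hℓF
  have hA1 : 1 ≤ A := by
    have h1 := hA 0
    rw [pow_zero] at h1
    rcases Nat.eq_zero_or_pos A with h2 | h2
    · rw [h2, zero_mul] at h1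
      omega
    · exact h2
  have hℓ1 : (1 : ℝ) < ℓ := by exact_mod_cast hℓ.one_lt
  have hlog : 0 < Real.log ℓ := Real.log_pos hℓ1
  obtain ⟨n₀, hn₀⟩ := exists_nat_ge (2 * Real.log A / Real.log ℓ)
  refine ⟨2 / Real.log ℓ, by positivity, n₀, fun n hn => ?_⟩
  have h1 : ((ℓ : ℝ)) ^ n ≤ A * maxDeg f g n := by exact_mod_cast hA n
  have hM : (0 : ℝ) < maxDeg f g n := by
    have h2 : 0 < A * maxDeg f g n := lt_of_lt_of_le (Nat.pow_pos hℓ.pos) (hA n)
    exact_mod_cast Nat.pos_of_mul_pos_left h2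
  have hA0 : (0 : ℝ) < A := by exact_mod_cast hA1
  have h2 := Real.log_le_log (by positivity) h1
  rw [Real.log_pow, Real.log_mul hA0.ne' hM.ne'] at h2
  have h3 : 2 * Real.log A / Real.log ℓ ≤ n := hn₀.trans (by exact_mod_cast hn)
  rw [div_le_iff₀ hlog] at h3
  rw [div_mul_eq_mul_div, le_div_iff₀ hlog]
  linarith

end Pool.Agent.Results.MP_b400b0_nt.PowerQuotients
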