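import Mathlib

/-!
# MP_b400b0_nt: polynomials with a rotation symmetry about a periodic point

`F` finite field, `K` its algebraic closure, `f` irreducible, `g` of degree `≥ 2`.  If
`g (γ + ζ (x - γ)) = g x` for some `γ ∈ K` periodic under `g` and some `ζ ≠ 1` of order `d`, then for
`w ∈ K` the product formula for `g^{(r)} - w` at `γ` (`r` the period) reads
`w - γ = C (∏ (z_i - γ)) ^ d` with `g^{(r)} (z_i) = w`; iterating, `w - γ = C_k Z ^ (d ^ k)`, `Z` in the
field generated by the solutions of `g^{(k r)} (z) = w`.  The same holds for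
`w' = γ + ζ (w - γ)`, so `ζ` is a `d ^ k`-th power in that field, which forces the degree of the
field to be divisible by a large power of each prime `ℓ ∣ d`.
-/

set_option autoImplicit false

namespace Pool.Agent.Results.MP_b400b0_nt.RotationSymmetry

open Polynomial

/-- `g^{(n)}`: `g^{(0)} = x`, `g^{(n+1)} = g(g^{(n)}(x))`. -/
noncomputable def it {F : Type} [Field F] (g : F[X]) (n : ℕ) : F[X] := (g.comp)^[n] X

/-- `M_{f,g}(n)`: the largest degree of an irreducible factor of `f(g^{(n)}(x))` over `F`. -/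
noncomputable def maxDeg {F : Type} [Field F] (f g : F[X]) (n : ℕ) : ℕ :=
  sSup {m | ∃ h : F[X], Irreducible h ∧ h ∣ f.comp (it g n) ∧ h.natDegree = m}

section lte

/-- an upper bound for the `ℓ`-adic valuation of `q ^ L - 1` -/
theorem lte (ℓ q : ℕ) (hℓ : ℓ.Prime) (hq : 2 ≤ q) (hnd : ¬ ℓ ∣ q) :
    ∃ c : ℕ, ∀ L : ℕ, 1 ≤ L → padicValNat ℓ (q ^ L - 1) ≤ c + padicValNat ℓ L := by
  have : Fact ℓ.Prime := ⟨hℓ⟩
  have hmono : ∀ a b : ℕ, b ≠ 0 → a ∣ b → padicValNat ℓ a ≤ padicValNat ℓ b := by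
    intro a b hb hab
    obtain ⟨c, rfl⟩ := hab
    have ha : a ≠ 0 := left_ne_zero_of_mul hb
    have hc : c ≠ 0 := right_ne_zero_of_mul hb
    rw [padicValNat.mul ha hc]
    omega
  rcases hℓ.eq_two_or_odd' with h2 | hodd
  · subst h2
    refine ⟨padicValNat 2 (q + 1) + padicValNat 2 (q - 1), fun L hL => ?_⟩
    have hqo : ¬ 2 ∣ q := hnd
    have h1 := padicValNat.pow_two_sub_pow (x := q) (y := 1) (by omega) (by omega) hqo
      (n := 2 * L) (by omega) ⟨L, by ring⟩
    rw [one_pow, padicValNat.mul (by norm_num) (by omega)] at h1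
    have h3 : padicValNat 2 2 = 1 := padicValNat.self (by norm_num)
    rw [h3] at h1
    have h2 : padicValNat 2 (q ^ L - 1) ≤ padicValNat 2 (q ^ (2 * L) - 1) := by
      apply hmono
      · have : 1 < q ^ (2 * L) := Nat.one_lt_pow (by omega) (by omega)
        omega
      · have := Nat.sub_dvd_pow_sub_pow (q ^ L) 1 2
        rwa [one_pow, ← pow_mul, mul_comm L 2] at this
    omega
  · have hℓ1 : 1 < ℓ := hℓ.one_lt
    have hℓ2 : ℓ ≠ 2 := by rintro rfl; exact absurd hodd (by decide)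
    have hx : ¬ ℓ ∣ q ^ (ℓ - 1) := fun h => hnd (hℓ.dvd_of_dvd_pow h)
    have hfer : ℓ ∣ q ^ (ℓ - 1) - 1 := by
      have h1 : ((q : ZMod ℓ)) ≠ 0 := by
        rw [Ne, ZMod.natCast_eq_zero_iff]
        exact hnd
      have h2 := ZMod.pow_card_sub_one_eq_one h1
      rw [← ZMod.natCast_eq_zero_iff, Nat.cast_sub (Nat.one_le_pow _ _ (by omega))]
      push_cast
      rw [h2, sub_self]
    have hgt : 1 < q ^ (ℓ - 1) := Nat.one_lt_pow (by omega) (by omega)
    refine ⟨padicValNat ℓ (q ^ (ℓ - 1) - 1), fun L hL => ?_⟩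
    have h1 := padicValNat.pow_sub_pow (p := ℓ) (hp1 := hodd) (x := q ^ (ℓ - 1)) (y := 1) hgt
      hfer hx (n := L) (by omega)
    rw [one_pow] at h1
    rw [← h1]
    apply hmono
    · have : 1 < (q ^ (ℓ - 1)) ^ L := Nat.one_lt_pow (by omega) hgt
      omega
    · have := Nat.sub_dvd_pow_sub_pow (q ^ L) 1 (ℓ - 1)
      rwa [one_pow, ← pow_mul, mul_comm L, pow_mul] at this

end lte

variable {F : Type} [Field F]

theorem it_succ (g : F[X]) (n : ℕ) : it g (n + 1) = g.comp (it g n) := by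
  unfold it
  rw [Function.iterate_succ_apply']

theorem natDegree_it (g : F[X]) (n : ℕ) : (it g n).natDegree = g.natDegree ^ n := by
  unfold it
  rw [natDegree_iterate_comp, natDegree_X, mul_one]

section K

variable {K : Type} [Field K] [Algebra F K]

theorem aeval_it (g : F[X]) (n : ℕ) (x : K) :
    aeval x (it g n) = (fun y : K => aeval y g)^[n] x := by
  induction n with
  | zero => simp [it]
  | succ n ih => rw [it_succ, aeval_comp, ih, Function.iterate_succ_apply']

theorem comp_ne_zero (f g : F[X]) (hf : f ≠ 0) (hg : 1 ≤ g.natDegree) (n : ℕ) :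
    f.comp (it g n) ≠ 0 := by
  intro h
  rw [comp_eq_zero_iff] at h
  rcases h with h | ⟨-, h⟩
  · exact hf h
  · have h1 := natDegree_it g n
    rw [h, natDegree_C] at h1
    have : 0 < g.natDegree ^ n := Nat.pow_pos (by omega)
    omega

theorem le_maxDeg (f g : F[X]) (hf : f ≠ 0) (hg : 1 ≤ g.natDegree) (n : ℕ) (z : K)
    (hz : aeval z (f.comp (it g n)) = 0) : (minpoly F z).natDegree ≤ maxDeg f g n := by
  have hP := comp_ne_zero f g hf hg n
  have hint : IsIntegral F z := isAlgebraic_iff_isIntegral.1 ⟨_, hP, hz⟩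
  refine le_csSup ⟨(f.comp (it g n)).natDegree, ?_⟩
    ⟨minpoly F z, minpoly.irreducible hint, minpoly.dvd F z hz, rfl⟩
  rintro m ⟨h, -, hd, rfl⟩
  exact natDegree_le_of_dvd hd hP

/-- degrees do not decrease along preimages -/
theorem deg_le [Algebra.IsAlgebraic F K] (g : F[X]) (m : ℕ) (z z' : K)
    (h : (fun y : K => aeval y g)^[m] z' = z) :
    (minpoly F z).natDegree ≤ (minpoly F z').natDegree := by
  have hz' : IsIntegral F z' := Algebra.IsIntegral.isIntegral z'
  have hz : IsIntegral F z := Algebra.IsIntegral.isIntegral z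
  have hle : IntermediateField.adjoin F {z} ≤ IntermediateField.adjoin F {z'} := by
    rw [IntermediateField.adjoin_simple_le_iff, ← h, ← aeval_it]
    exact IntermediateField.algebra_adjoin_le_adjoin F _ (aeval_mem_adjoin_singleton F z')
  have hfd : FiniteDimensional F (IntermediateField.adjoin F {z'}) :=
    IntermediateField.adjoin.finiteDimensional hz'
  rw [← IntermediateField.adjoin.finrank hz, ← IntermediateField.adjoin.finrank hz']
  exact IntermediateField.finrank_le_of_le_right hle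

end K

section Frob

variable [Fintype F] {K : Type} [Field K] [Algebra F K]

theorem frob_pow (n : ℕ) (z : K) :
    (FiniteField.frobeniusAlgHom F K ^ n) z = z ^ (Fintype.card F ^ n) := by
  rw [AlgHom.coe_pow, FiniteField.coe_frobeniusAlgHom, pow_iterate]

theorem frob_deg [Algebra.IsAlgebraic F K] (z : K) :
    z ^ (Fintype.card F ^ (minpoly F z).natDegree) = z := by
  have hz : IsIntegral F z := Algebra.IsIntegral.isIntegral z
  have hfd : FiniteDimensional F (IntermediateField.adjoin F {z}) :=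
    IntermediateField.adjoin.finiteDimensional hz
  have hfin : Finite (IntermediateField.adjoin F {z}) := Module.finite_of_finite F
  let _ := Fintype.ofFinite (IntermediateField.adjoin F {z})
  have h1 := FiniteField.pow_card
    (⟨z, IntermediateField.mem_adjoin_simple_self F z⟩ : IntermediateField.adjoin F {z})
  rw [Module.card_eq_pow_finrank (K := F) (V := IntermediateField.adjoin F {z}),
    IntermediateField.adjoin.finrank hz] at h1
  exact congrArg Subtype.val h1

theorem frob_dvd [Algebra.IsAlgebraic F K] (z : K) (L : ℕ)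
    (h : (minpoly F z).natDegree ∣ L) : z ^ (Fintype.card F ^ L) = z := by
  obtain ⟨m, rfl⟩ := h
  induction m with
  | zero => simp
  | succ m ih => rw [mul_add, mul_one, pow_add, pow_mul, ih, frob_deg]

theorem mem_range (z : K) (h : z ^ Fintype.card F = z) : ∃ a : F, algebraMap F K a = z := by
  classical
  by_contra hcon
  push Not at hcon
  have hne := FiniteField.X_pow_card_sub_X_ne_zero K (p := Fintype.card F) Fintype.one_lt_card
  have hdeg := FiniteField.X_pow_card_sub_X_natDegree_eq K (p := Fintype.card F)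
    Fintype.one_lt_card
  have hsub : insert z (Finset.univ.image (algebraMap F K)) ⊆
      (X ^ Fintype.card F - X : K[X]).roots.toFinset := by
    intro y hy
    rw [Multiset.mem_toFinset, mem_roots hne, IsRoot.def, eval_sub, eval_pow, eval_X, sub_eq_zero]
    rcases Finset.mem_insert.1 hy with rfl | hy
    · exact h
    · obtain ⟨a, -, rfl⟩ := Finset.mem_image.1 hy
      rw [← map_pow, FiniteField.pow_card]
  have hc := Finset.card_le_card hsub
  rw [Finset.card_insert_of_notMem (by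
      intro hy
      obtain ⟨a, -, ha⟩ := Finset.mem_image.1 hy
      exact hcon a ha),
    Finset.card_image_of_injective _ (algebraMap F K).injective, Finset.card_univ] at hc
  have h2 := (Multiset.toFinset_card_le (X ^ Fintype.card F - X : K[X]).roots).trans
    (card_roots' _)
  rw [hdeg] at h2
  omega

end Frob

section core

variable {K : Type} [Field K] [Algebra F K] [IsAlgClosed K]

theorem surj (g : F[X]) (hg : 1 ≤ g.natDegree) (y : K) : ∃ x : K, aeval x g = y := by
  have h1 : (g.map (algebraMap F K) - C y).degree ≠ 0 := by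
    intro h
    have h2 := natDegree_eq_zero_iff_degree_le_zero.2 h.le
    rw [natDegree_sub_C, natDegree_map] at h2
    omega
  obtain ⟨x, hx⟩ := IsAlgClosed.exists_root _ h1
  refine ⟨x, ?_⟩
  rw [IsRoot.def, eval_sub, eval_C, sub_eq_zero, eval_map_algebraMap] at hx
  exact hx

theorem surj_it (g : F[X]) (hg : 1 ≤ g.natDegree) (n : ℕ) (y : K) :
    ∃ x : K, (fun y : K => aeval y g)^[n] x = y :=
  (Function.Surjective.iterate (fun y => surj g hg y) n) y

omit [IsAlgClosed K] in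
/-- the rotation symmetry makes `g` a polynomial in `(x - γ) ^ d` -/
theorem exists_H (g : F[X]) (hg : 1 ≤ g.natDegree) (γ ζ : K)
    (hsym : (g.map (algebraMap F K)).comp (C γ + C ζ * (X - C γ)) = g.map (algebraMap F K))
    (hd : 0 < orderOf ζ) :
    ∃ H : K[X], 1 ≤ H.natDegree ∧ ∀ x : K, aeval x g = H.eval ((x - γ) ^ orderOf ζ) := by
  obtain ⟨P, hP⟩ : ∃ P : K[X], P = (g.map (algebraMap F K)).comp (X + C γ) := ⟨_, rfl⟩
  have hPz : P.comp (C ζ * X) = P := by
    rw [hP, comp_assoc]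
    conv_rhs => rw [← hsym, comp_assoc]
    congr 1
    simp
    ring
  have hco : ∀ i, ¬ orderOf ζ ∣ i → P.coeff i = 0 := by
    intro i hi
    have h1 := congrArg (fun Q : K[X] => Q.coeff i) hPz
    simp only [comp_C_mul_X_coeff] at h1
    by_contra hne
    have h2 : ζ ^ i = 1 := by
      have h3 : P.coeff i * ζ ^ i = P.coeff i * 1 := by rw [mul_one]; exact h1
      exact mul_left_cancel₀ hne h3
    exact hi (orderOf_dvd_of_pow_eq_one h2)
  have hexp : expand K (orderOf ζ) (contract (orderOf ζ) P) = P := by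
    ext i
    rw [coeff_expand hd]
    split_ifs with h
    · rw [coeff_contract hd.ne', Nat.div_mul_cancel h]
    · exact (hco i h).symm
  refine ⟨contract (orderOf ζ) P, ?_, fun x => ?_⟩
  · have h1 : P.natDegree = g.natDegree := by
      rw [hP, natDegree_comp, natDegree_map, natDegree_X_add_C, mul_one]
    rw [← hexp, natDegree_expand] at h1
    by_contra h2
    have h3 : (contract (orderOf ζ) P).natDegree = 0 := by omega
    rw [h3] at h1
    omega
  · rw [← expand_eval, hexp, hP, eval_comp]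
    simp

/-- the product formula for `g^{(r)} - w` at the periodic point `γ` -/
theorem onestep (g : F[X]) (hg : 1 ≤ g.natDegree) (γ : K) (d : ℕ) (hd : 0 < d) (H : K[X])
    (hH1 : 1 ≤ H.natDegree) (hH : ∀ x : K, aeval x g = H.eval ((x - γ) ^ d)) (r : ℕ) (hr : 0 < r)
    (hper : (fun y : K => aeval y g)^[r] γ = γ) :
    ∃ c : K, ∃ N : ℕ, ∀ w : K, ∃ s : Multiset K, Multiset.card s = N ∧
      (∀ z ∈ s, (fun y : K => aeval y g)^[r] z = w) ∧
      w - γ = c * ((s.map fun z => z - γ).prod) ^ d := by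
  obtain ⟨m, rfl⟩ : ∃ m, r = m + 1 := ⟨r - 1, by omega⟩
  obtain ⟨Q, hQ⟩ : ∃ Q : K[X], Q = ((g.map (algebraMap F K)).comp^[m] X).comp H := ⟨_, rfl⟩
  have hQe : ∀ y : K, Q.eval y = (fun y : K => aeval y g)^[m] (H.eval y) := by
    intro y
    rw [hQ, eval_comp, iterate_comp_eval, eval_X]
    simp only [eval_map_algebraMap]
  have hQd : 1 ≤ Q.natDegree := by
    rw [hQ, natDegree_comp, natDegree_iterate_comp, natDegree_X, mul_one, natDegree_map]
    exact Nat.mul_pos (Nat.pow_pos (by omega)) (by omega)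
  have hQ0 : Q.eval 0 = γ := by
    rw [hQe]
    have h1 : H.eval 0 = aeval γ g := by rw [hH, sub_self, zero_pow hd.ne']
    rw [h1, ← Function.iterate_succ_apply]
    exact hper
  have hrt : ∀ y : K, ∃ z : K, z ^ d = y := fun y => IsAlgClosed.exists_pow_nat_eq y hd
  choose rt hrt using hrt
  refine ⟨-(Q.leadingCoeff * (-1) ^ Q.natDegree), Q.natDegree, fun w => ?_⟩
  have hsp := IsAlgClosed.splits (Q - C w)
  have hcard : Multiset.card (Q - C w).roots = Q.natDegree := by
    rw [← hsp.natDegree_eq_card_roots, natDegree_sub_C]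
  have hlead : (Q - C w).leadingCoeff = Q.leadingCoeff := by
    refine leadingCoeff_sub_of_degree_lt ?_
    refine lt_of_le_of_lt degree_C_le ?_
    rw [← natDegree_pos_iff_degree_pos]
    omega
  refine ⟨(Q - C w).roots.map fun y => γ + rt y, ?_, ?_, ?_⟩
  · rw [Multiset.card_map, hcard]
  · intro z hz
    obtain ⟨y, hy, rfl⟩ := Multiset.mem_map.1 hz
    have h1 := (mem_roots'.1 hy).2
    rw [IsRoot.def, eval_sub, eval_C, sub_eq_zero, hQe] at h1
    rw [Function.iterate_succ_apply, hH, add_sub_cancel_left, hrt]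
    exact h1
  · have h1 := hsp.eval_eq_prod_roots 0
    rw [hlead, eval_sub, eval_C, hQ0] at h1
    have h2 : ((Q - C w).roots.map fun x => (0 : K) - x).prod =
        (-1) ^ Q.natDegree * ((Q - C w).roots.map fun x => x).prod := by
      have h3 : ((Q - C w).roots.map fun x => (0 : K) - x) =
          ((Q - C w).roots.map fun x => (-1 : K) * x) :=
        Multiset.map_congr rfl fun x _ => by ring
      rw [h3, Multiset.prod_map_mul, Multiset.map_const', Multiset.prod_replicate, hcard]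
    have h4 : ((((Q - C w).roots.map fun y => γ + rt y).map fun z => z - γ).prod) ^ d =
        ((Q - C w).roots.map fun x => x).prod := by
      rw [Multiset.map_map, ← Multiset.prod_map_pow]
      congr 1
      refine Multiset.map_congr rfl fun x _ => ?_
      simp only [Function.comp_apply, add_sub_cancel_left]
      exact hrt x
    rw [h4]
    rw [h2] at h1
    linear_combination (-1 : K) * h1

omit [IsAlgClosed K] in
theorem iterstep (g : F[X]) (γ : K) (d r : ℕ) (c : K) (N : ℕ)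
    (hone : ∀ w : K, ∃ s : Multiset K, Multiset.card s = N ∧
      (∀ z ∈ s, (fun y : K => aeval y g)^[r] z = w) ∧
      w - γ = c * ((s.map fun z => z - γ).prod) ^ d) (k : ℕ) :
    ∃ b : K, ∀ w : K, ∃ Z : K, w - γ = b * Z ^ (d ^ k) ∧ ∀ φ : K →ₐ[F] K, φ γ = γ →
      (∀ z, (fun y : K => aeval y g)^[k * r] z = w → φ z = z) → φ Z = Z := by
  induction k with
  | zero =>
    refine ⟨1, fun w => ⟨w - γ, by simp, fun φ hγ hφ => ?_⟩⟩
    rw [map_sub, hγ, hφ w (by simp)]
  | succ k ih =>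
    obtain ⟨b, hb⟩ := ih
    choose Zf h1 h2 using hb
    refine ⟨c * (b ^ N) ^ d, fun w => ?_⟩
    obtain ⟨s, hs1, hs2, hs3⟩ := hone w
    refine ⟨(s.map Zf).prod, ?_, fun φ hγ hφ => ?_⟩
    · have h3 : (s.map fun z => z - γ).prod = b ^ N * ((s.map Zf).prod) ^ (d ^ k) := by
        have h4 : (s.map fun z => z - γ) = s.map fun z => b * Zf z ^ (d ^ k) :=
          Multiset.map_congr rfl fun z _ => h1 z
        rw [h4, Multiset.prod_map_mul, Multiset.map_const', Multiset.prod_replicate, hs1,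
          Multiset.prod_map_pow]
      rw [hs3, h3]
      ring
    · rw [map_multiset_prod, Multiset.map_map]
      congr 1
      refine Multiset.map_congr rfl fun z hz => ?_
      refine h2 z φ hγ fun y hy => hφ y ?_
      rw [Nat.succ_mul, Nat.add_comm, Function.iterate_add_apply, hy]
      exact hs2 z hz

/-- `ζ` is a `d ^ k`-th power of an element fixed by every `φ` that fixes `γ` and the level
`j + k r` of the tree of preimages -/
theorem core (g : F[X]) (hg : 1 ≤ g.natDegree) (γ ζ : K)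
    (hsym : (g.map (algebraMap F K)).comp (C γ + C ζ * (X - C γ)) = g.map (algebraMap F K))
    (hd : 0 < orderOf ζ) (r : ℕ) (hr : 0 < r) (hper : (fun y : K => aeval y g)^[r] γ = γ)
    (α w : K) (j : ℕ) (hj : 0 < j) (hw : (fun y : K => aeval y g)^[j] w = α) (hwγ : w ≠ γ)
    (k : ℕ) (φ : K →ₐ[F] K) (hφγ : φ γ = γ)
    (hφ : ∀ z, (fun y : K => aeval y g)^[j + k * r] z = α → φ z = z) :
    ∃ ξ : K, ξ ≠ 0 ∧ φ ξ = ξ ∧ ξ ^ (orderOf ζ ^ k) = ζ := by
  obtain ⟨H, hH1, hH⟩ := exists_H g hg γ ζ hsym hd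
  obtain ⟨c, N, hone⟩ := onestep g hg γ _ hd H hH1 hH r hr hper
  obtain ⟨b, hb⟩ := iterstep g γ _ r c N hone k
  have hζ0 : ζ ≠ 0 := by
    rintro rfl
    simp at hd
  have hGw : aeval (γ + ζ * (w - γ)) g = aeval w g := by
    rw [hH, hH, add_sub_cancel_left, mul_pow, pow_orderOf_eq_one, one_mul]
  have hw' : (fun y : K => aeval y g)^[j] (γ + ζ * (w - γ)) = α := by
    obtain ⟨i, rfl⟩ : ∃ i, j = i + 1 := ⟨j - 1, by omega⟩
    rw [Function.iterate_succ_apply] at hw ⊢
    rw [hGw]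
    exact hw
  obtain ⟨Z, hZ1, hZ2⟩ := hb w
  obtain ⟨Z', hZ1', hZ2'⟩ := hb (γ + ζ * (w - γ))
  have hne : w - γ ≠ 0 := sub_ne_zero.2 hwγ
  rw [add_sub_cancel_left] at hZ1'
  have hd0 : orderOf ζ ^ k ≠ 0 := (Nat.pow_pos hd).ne'
  have hb0 : b ≠ 0 := by
    rintro rfl
    rw [zero_mul] at hZ1
    exact hne hZ1
  have hZ0 : Z ≠ 0 := by
    rintro rfl
    rw [zero_pow hd0, mul_zero] at hZ1
    exact hne hZ1
  have hZ0' : Z' ≠ 0 := by
    rintro rfl
    rw [zero_pow hd0, mul_zero] at hZ1'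
    exact (mul_ne_zero hζ0 hne) hZ1'
  refine ⟨Z' / Z, div_ne_zero hZ0' hZ0, ?_, ?_⟩
  · rw [map_div₀, hZ2 φ hφγ, hZ2' φ hφγ]
    · intro z hz
      refine hφ z ?_
      rw [Function.iterate_add_apply, hz]
      exact hw'
    · intro z hz
      refine hφ z ?_
      rw [Function.iterate_add_apply, hz]
      exact hw
  · rw [div_pow, div_eq_iff (pow_ne_zero _ hZ0)]
    refine mul_left_cancel₀ hb0 ?_
    rw [← hZ1', hZ1]
    ring

omit [IsAlgClosed K] in
/-- a valuation estimate -/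
theorem val_est (ζ ξ : K) (ℓ u k M : ℕ) (hℓ : ℓ.Prime) (hu : 1 ≤ u)
    (hdiv : ℓ ^ u ∣ orderOf ζ) (h1 : ξ ^ (orderOf ζ ^ k) = ζ) (hM : M ≠ 0) (h2 : ξ ^ M = 1) :
    u * k + 1 ≤ padicValNat ℓ M := by
  by_contra hcon
  have hv : padicValNat ℓ M ≤ u * k := by omega
  obtain ⟨v, m, hm, hMm⟩ := Nat.exists_eq_pow_mul_and_not_dvd hM ℓ hℓ.ne_one
  have hvv : padicValNat ℓ M = v := by
    have : Fact ℓ.Prime := ⟨hℓ⟩
    have hm0 : m ≠ 0 := by rintro rfl; exact hm (dvd_zero _)
    rw [hMm, padicValNat.mul (pow_ne_zero _ hℓ.ne_zero) hm0, padicValNat.prime_pow,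
      padicValNat.eq_zero_of_not_dvd hm, add_zero]
  rw [hvv] at hv
  have h3 : ℓ ^ v ∣ orderOf ζ ^ k := by
    calc ℓ ^ v ∣ ℓ ^ (u * k) := pow_dvd_pow _ hv
      _ = (ℓ ^ u) ^ k := by rw [pow_mul]
      _ ∣ orderOf ζ ^ k := pow_dvd_pow_of_dvd hdiv k
  have h4 : M ∣ orderOf ζ ^ k * m := by
    rw [hMm]
    exact mul_dvd_mul_right h3 m
  have h5 : ξ ^ (orderOf ζ ^ k * m) = 1 := by
    obtain ⟨e, he⟩ := h4
    rw [he, pow_mul, h2, one_pow]
  rw [pow_mul, h1] at h5
  have h6 := orderOf_dvd_of_pow_eq_one h5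
  exact hm ((dvd_pow_self ℓ (by omega)).trans (hdiv.trans h6))

/-- the main estimate along the levels `j + k r` -/
theorem main_est [Fintype F] [Algebra.IsAlgebraic F K] (f g : F[X]) (hf : f ≠ 0)
    (hg : 1 ≤ g.natDegree) (γ ζ : K)
    (hsym : (g.map (algebraMap F K)).comp (C γ + C ζ * (X - C γ)) = g.map (algebraMap F K))
    (hd : 0 < orderOf ζ) (r : ℕ) (hr : 0 < r) (hper : (fun y : K => aeval y g)^[r] γ = γ)
    (α w : K) (hα : aeval α f = 0) (j : ℕ) (hj : 0 < j)
    (hw : (fun y : K => aeval y g)^[j] w = α) (hwγ : w ≠ γ) (ℓ u : ℕ) (hℓ : ℓ.Prime)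
    (hu : 1 ≤ u) (hdiv : ℓ ^ u ∣ orderOf ζ) :
    ∃ A : ℕ, ∀ k n : ℕ, j + k * r ≤ n → ℓ ^ (u * k) ≤ ℓ ^ A * maxDeg f g n := by
  classical
  have hfact : Fact ℓ.Prime := ⟨hℓ⟩
  have hζ0 : ζ ≠ 0 := by
    rintro rfl
    simp at hd
  have hζ1 : ζ ^ (Fintype.card F ^ (minpoly F ζ).natDegree - 1) = 1 := by
    have h1 := frob_deg (F := F) ζ
    have h2 : 1 ≤ Fintype.card F ^ (minpoly F ζ).natDegree :=
      Nat.one_le_pow _ _ Fintype.card_pos
    refine mul_right_cancel₀ hζ0 ?_
    rw [← pow_succ, Nat.sub_add_cancel h2, h1, one_mul]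
  have hq : 2 ≤ Fintype.card F := Fintype.one_lt_card
  have hnd : ¬ ℓ ∣ Fintype.card F := by
    intro h
    have hpos : 0 < (minpoly F ζ).natDegree :=
      minpoly.natDegree_pos (Algebra.IsIntegral.isIntegral ζ)
    have h1 : ℓ ∣ Fintype.card F ^ (minpoly F ζ).natDegree := dvd_pow h hpos.ne'
    have h2 : ℓ ∣ Fintype.card F ^ (minpoly F ζ).natDegree - 1 :=
      (dvd_pow_self ℓ (by omega)).trans (hdiv.trans (orderOf_dvd_of_pow_eq_one hζ1))
    have h3 : 1 ≤ Fintype.card F ^ (minpoly F ζ).natDegree :=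
      Nat.one_le_pow _ _ Fintype.card_pos
    have h4 : ℓ ∣ 1 := by
      have := (Nat.dvd_sub h1 h2)
      rwa [Nat.sub_sub_self h3] at this
    exact hℓ.one_lt.ne' (Nat.dvd_one.1 h4)
  obtain ⟨c0, hc0⟩ := lte ℓ (Fintype.card F) hℓ hq hnd
  refine ⟨c0 + padicValNat ℓ (minpoly F γ).natDegree, fun k n hn => ?_⟩
  obtain ⟨n0, hn0⟩ : ∃ n0, n0 = j + k * r := ⟨_, rfl⟩
  have hP := comp_ne_zero f g hf hg n0
  obtain ⟨S, hS⟩ : ∃ S : Finset K, ∀ z, z ∈ S ↔ aeval z (f.comp (it g n0)) = 0 := by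
    refine ⟨((f.comp (it g n0)).aroots K).toFinset, fun z => ?_⟩
    rw [Multiset.mem_toFinset, mem_aroots]
    exact ⟨fun h => h.2, fun h => ⟨hP, h⟩⟩
  have hmemS : ∀ z : K, (fun y : K => aeval y g)^[n0] z = α → z ∈ S := by
    intro z hz
    rw [hS, aeval_comp, aeval_it, hz, hα]
  have hSne : S.Nonempty := by
    obtain ⟨z, hz⟩ := surj_it g hg n0 α
    exact ⟨z, hmemS z hz⟩
  have hdegpos : ∀ z : K, (minpoly F z).natDegree ≠ 0 := fun z =>
    (minpoly.natDegree_pos (Algebra.IsIntegral.isIntegral z)).ne'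
  obtain ⟨z0, hz0, hmax⟩ := S.exists_max_image
    (fun z => padicValNat ℓ (minpoly F z).natDegree) hSne
  obtain ⟨s, hs⟩ : ∃ s, s = padicValNat ℓ (minpoly F z0).natDegree := ⟨_, rfl⟩
  obtain ⟨T, hT⟩ : ∃ T, T = ∏ z ∈ S, ordCompl[ℓ] (minpoly F z).natDegree := ⟨_, rfl⟩
  have hTnd : ¬ ℓ ∣ T := by
    rw [hT, Prime.dvd_finsetProd_iff hℓ.prime]
    rintro ⟨z, -, hz⟩
    exact Nat.not_dvd_ordCompl hℓ (hdegpos z) hz
  have hT0 : T ≠ 0 := by
    intro h
    rw [h] at hTnd
    exact hTnd (dvd_zero _)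
  obtain ⟨L, hL⟩ : ∃ L, L = ℓ ^ s * T * (minpoly F γ).natDegree := ⟨_, rfl⟩
  have hℓs : ℓ ^ s ≠ 0 := pow_ne_zero _ hℓ.ne_zero
  have hL0 : L ≠ 0 := by
    rw [hL]
    exact mul_ne_zero (mul_ne_zero hℓs hT0) (hdegpos γ)
  have hLv : padicValNat ℓ L = s + padicValNat ℓ (minpoly F γ).natDegree := by
    rw [hL, padicValNat.mul (mul_ne_zero hℓs hT0) (hdegpos γ), padicValNat.mul hℓs hT0,
      padicValNat.prime_pow, padicValNat.eq_zero_of_not_dvd hTnd, add_zero]
  have hdvd : ∀ z ∈ S, (minpoly F z).natDegree ∣ L := by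
    intro z hz
    have h1 : (minpoly F z).natDegree ∣ ℓ ^ s * T := by
      rw [← Nat.ordProj_mul_ordCompl_eq_self (minpoly F z).natDegree ℓ]
      refine mul_dvd_mul (pow_dvd_pow _ ?_) ?_
      · rw [Nat.factorization_def _ hℓ, hs]
        exact hmax z hz
      · rw [hT]
        exact Finset.dvd_prod_of_mem (fun z => ordCompl[ℓ] (minpoly F z).natDegree) hz
    rw [hL]
    exact h1.mul_right _
  have hfrob : ∀ z : K, (FiniteField.frobeniusAlgHom F K ^ L) z = z ^ (Fintype.card F ^ L) :=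
    frob_pow L
  obtain ⟨ξ, hξ0, hξ1, hξ2⟩ := core g hg γ ζ hsym hd r hr hper α w j hj hw hwγ k
    (FiniteField.frobeniusAlgHom F K ^ L)
    (by rw [hfrob]; exact frob_dvd γ L (by rw [hL]; exact dvd_mul_left _ _))
    (by
      intro z hz
      rw [hfrob]
      exact frob_dvd z L (hdvd z (hmemS z (by rw [hn0]; exact hz))))
  rw [hfrob] at hξ1
  have hqL : 1 < Fintype.card F ^ L := Nat.one_lt_pow hL0 (by omega)
  have hξ3 : ξ ^ (Fintype.card F ^ L - 1) = 1 := by
    refine mul_right_cancel₀ hξ0 ?_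
    rw [← pow_succ, Nat.sub_add_cancel hqL.le, hξ1, one_mul]
  have h1 := val_est ζ ξ ℓ u k (Fintype.card F ^ L - 1) hℓ hu hdiv hξ2 (by omega) hξ3
  have h2 := hc0 L (by omega)
  have h3 : u * k ≤ c0 + padicValNat ℓ (minpoly F γ).natDegree + s := by omega
  have h4 : ℓ ^ s ≤ maxDeg f g n := by
    have h5 : ℓ ^ s ≤ (minpoly F z0).natDegree := by
      refine Nat.le_of_dvd (Nat.pos_of_ne_zero (hdegpos z0)) ?_
      rw [hs]
      exact pow_padicValNat_dvd
    obtain ⟨z', hz'⟩ := surj_it g hg (n - n0) z0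
    have h6 := deg_le g (n - n0) z0 z' hz'
    have h7 : aeval z' (f.comp (it g n)) = 0 := by
      have h8 := (hS z0).1 hz0
      rw [aeval_comp, aeval_it] at h8 ⊢
      have h9 : n = n0 + (n - n0) := by omega
      rw [h9, Function.iterate_add_apply, hz']
      exact h8
    exact h5.trans (h6.trans (le_maxDeg f g hf hg n z' h7))
  calc ℓ ^ (u * k) ≤ ℓ ^ (c0 + padicValNat ℓ (minpoly F γ).natDegree + s) :=
        Nat.pow_le_pow_right hℓ.pos h3
    _ = ℓ ^ (c0 + padicValNat ℓ (minpoly F γ).natDegree) * ℓ ^ s := pow_add _ _ _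
    _ ≤ _ := Nat.mul_le_mul_left _ h4

/-- `(f, g)` is critical if `f = b (x - a) ^ k` and `g = c (x - a) ^ D + a` for some
`a, b, c ∈ F`, `k = deg f`, `D = deg g`. -/
def Critical (f g : F[X]) : Prop :=
  ∃ a b c : F, f = C b * (X - C a) ^ f.natDegree ∧ g = C c * (X - C a) ^ g.natDegree + C a

/-- outside the critical case some root of `f (u x)` has a preimage under an iterate of `v ∘ u`
which is different from `γ` -/
theorem exists_w [Fintype F] [Algebra.IsAlgebraic F K] (f u v : F[X]) (hf : Irreducible f)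
    (hu : 1 ≤ u.natDegree) (hv : 1 ≤ v.natDegree) (γ ζ : K) (hζ : ζ ≠ 1)
    (hsym : ((v.comp u).map (algebraMap F K)).comp (C γ + C ζ * (X - C γ)) =
      (v.comp u).map (algebraMap F K))
    (hnc : ¬ Critical f (u.comp v)) :
    ∃ α : K, aeval α (f.comp u) = 0 ∧ ∃ j : ℕ, 0 < j ∧ ∃ w : K,
      (fun y : K => aeval y (v.comp u))^[j] w = α ∧ w ≠ γ := by
  by_contra hcon
  push Not at hcon
  have hh : 1 ≤ (v.comp u).natDegree := by
    rw [natDegree_comp]
    exact Nat.mul_pos (by omega) (by omega)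
  have hgd : 1 ≤ (u.comp v).natDegree := by
    rw [natDegree_comp]
    exact Nat.mul_pos (by omega) (by omega)
  obtain ⟨ω, hω⟩ : ∃ ω : K, aeval ω f = 0 := by
    obtain ⟨x, hx⟩ := IsAlgClosed.exists_aeval_eq_zero K f (by
      intro h
      exact hf.natDegree_pos.ne' (natDegree_eq_zero_iff_degree_le_zero.2 h.le))
    exact ⟨x, hx⟩
  obtain ⟨α, hα⟩ := surj u hu ω
  have hαf : aeval α (f.comp u) = 0 := by rw [aeval_comp, hα, hω]
  have h1 : ∀ x : K, aeval x (v.comp u) = α → x = γ :=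
    fun x hx => hcon α hαf 1 one_pos x hx
  have h2 : ∀ x : K, aeval (aeval x (v.comp u) : K) (v.comp u) = α → x = γ :=
    fun x hx => hcon α hαf 2 two_pos x hx
  have hγα : aeval γ (v.comp u) = α := by
    obtain ⟨x, hx⟩ := surj (v.comp u) hh α
    rwa [h1 x hx] at hx
  have hγγ : aeval γ (v.comp u) = γ := by
    obtain ⟨x, hx⟩ := surj (v.comp u) hh γ
    have h3 := h2 x (by rw [hx, hγα])
    rwa [h3] at hx
  have hαγ : α = γ := by rw [← hγα, hγγ]
  have hfib : ∀ x : K, aeval x (v.comp u) = γ → x = γ := fun x hx => h1 x (by rw [hx, hαγ])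
  -- `γ` is fixed by the Frobenius map
  have hφg : ∀ x : K, aeval (x ^ Fintype.card F) (v.comp u) =
      (aeval x (v.comp u)) ^ Fintype.card F := by
    intro x
    have h3 := Polynomial.aeval_algHom_apply (FiniteField.frobeniusAlgHom F K) x (v.comp u)
    simpa [FiniteField.coe_frobeniusAlgHom] using h3
  have hinj : ∀ x y : K, x ^ Fintype.card F = y ^ Fintype.card F → x = y := by
    intro x y hxy
    exact (FiniteField.frobeniusAlgHom F K).injective hxy
  have hfix : γ ^ Fintype.card F = γ := by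
    obtain ⟨δ, hδ⟩ : ∃ δ : K, γ ^ Fintype.card F = γ + δ := ⟨_, (add_sub_cancel γ _).symm⟩
    have h3 : aeval (γ + δ) (v.comp u) = γ + δ := by rw [← hδ, hφg, hγγ]
    have h4 : aeval (γ + ζ * δ) (v.comp u) = γ + δ := by
      have h5 := congrArg (fun Q : K[X] => Q.eval (γ + δ)) hsym
      simp only [eval_comp, eval_add, eval_mul, eval_sub, eval_C, eval_X, add_sub_cancel_left,
        eval_map_algebraMap] at h5
      rw [h5, h3]
    obtain ⟨x, hx⟩ := IsAlgClosed.exists_pow_nat_eq (γ + ζ * δ) (Fintype.card_pos (α := F))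
    rw [← hx, hφg, ← hδ] at h4
    have h6 := hfib x (hinj _ _ h4)
    rw [h6, hδ] at hx
    have h7 : (ζ - 1) * δ = 0 := by linear_combination -hx
    rcases mul_eq_zero.1 h7 with h8 | h8
    · exact absurd (sub_eq_zero.1 h8) hζ
    · rw [hδ, h8, add_zero]
  obtain ⟨a0, ha0⟩ := mem_range (F := F) γ hfix
  -- `δ = u γ` is the only preimage of itself under `u ∘ v`
  obtain ⟨a, ha⟩ : ∃ a : F, algebraMap F K a = ω := by
    refine ⟨u.eval a0, ?_⟩
    rw [← aeval_algebraMap_apply_eq_algebraMap_eval, ha0, ← hαγ, hα]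
  have huγ : aeval γ u = ω := by rw [← hαγ, hα]
  have hfg : ∀ x : K, aeval x (u.comp v) = ω → x = ω := by
    intro x hx
    rw [aeval_comp] at hx
    -- `v x` is a preimage of `ω` under `u`
    have h3 : aeval x v = γ := by
      refine hfib _ ?_
      rw [aeval_comp, hx, ← huγ, ← aeval_comp]
      exact hγγ
    obtain ⟨y, hy⟩ := surj u hu x
    have h4 : y = γ := hfib y (by rw [aeval_comp, hy, h3])
    rw [← hy, h4, huγ]
  -- `f` is linear
  have hfa : f.IsRoot a := by
    rw [IsRoot.def]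
    apply (algebraMap F K).injective
    rw [map_zero, ← aeval_algebraMap_apply_eq_algebraMap_eval, ha]
    exact hω
  obtain ⟨q, hq⟩ := dvd_iff_isRoot.2 hfa
  have hqu : IsUnit q := by
    rcases hf.isUnit_or_isUnit hq with h | h
    · exact absurd h (not_isUnit_X_sub_C a)
    · exact h
  obtain ⟨b, hb, rfl⟩ := isUnit_iff.1 hqu
  have hb0 : b ≠ 0 := hb.ne_zero
  have hfd : f.natDegree = 1 := by
    rw [hq, natDegree_mul_C hb0, natDegree_X_sub_C]
  -- `g - a` has only the root `a`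
  have hG : (u.comp v).map (algebraMap F K) - C ω =
      C (algebraMap F K (u.comp v).leadingCoeff) * (X - C ω) ^ (u.comp v).natDegree := by
    have hdeg : 0 < ((u.comp v).map (algebraMap F K)).natDegree := by
      rw [natDegree_map]
      omega
    have hsp := IsAlgClosed.splits ((u.comp v).map (algebraMap F K) - C ω)
    have hlead : ((u.comp v).map (algebraMap F K) - C ω).leadingCoeff =
        algebraMap F K (u.comp v).leadingCoeff := by
      rw [leadingCoeff_sub_of_degree_lt (lt_of_le_of_lt degree_C_le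
        (natDegree_pos_iff_degree_pos.1 hdeg)), leadingCoeff_map]
    have hcard : Multiset.card ((u.comp v).map (algebraMap F K) - C ω).roots =
        (u.comp v).natDegree := by
      rw [← hsp.natDegree_eq_card_roots, natDegree_sub_C, natDegree_map]
    have hroots : ((u.comp v).map (algebraMap F K) - C ω).roots =
        Multiset.replicate (u.comp v).natDegree ω := by
      rw [Multiset.eq_replicate]
      refine ⟨hcard, fun y hy => ?_⟩
      have h3 := (mem_roots'.1 hy).2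
      rw [IsRoot.def, eval_sub, eval_C, sub_eq_zero, eval_map_algebraMap] at h3
      exact hfg y h3
    conv_lhs => rw [hsp.eq_prod_roots]
    rw [hlead, hroots, Multiset.map_replicate, Multiset.prod_replicate]
  refine hnc ⟨a, b, (u.comp v).leadingCoeff, ?_, ?_⟩
  · rw [hfd, pow_one, mul_comm]
    exact hq
  · apply map_injective _ (algebraMap F K).injective
    rw [Polynomial.map_add, Polynomial.map_mul, Polynomial.map_pow, Polynomial.map_sub, map_X,
      map_C, map_C, ha, ← hG]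
    ring

/-- passing from `g = u ∘ v` to `v ∘ u` -/
theorem swap_le [Algebra.IsAlgebraic F K] (f u v : F[X]) (hf : f ≠ 0) (hu : 1 ≤ u.natDegree)
    (hv : 1 ≤ v.natDegree) (n : ℕ) :
    maxDeg (f.comp u) (v.comp u) n ≤ maxDeg f (u.comp v) (n + 1) := by
  have hgd : 1 ≤ (u.comp v).natDegree := by
    rw [natDegree_comp]
    exact Nat.mul_pos (by omega) (by omega)
  unfold maxDeg
  rcases Set.eq_empty_or_nonempty {m | ∃ h : F[X], Irreducible h ∧
    h ∣ (f.comp u).comp (it (v.comp u) n) ∧ h.natDegree = m} with he | hne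
  · rw [he, csSup_empty]
    exact bot_le
  refine csSup_le hne ?_
  rintro m ⟨h, hirr, hdvd, rfl⟩
  obtain ⟨y, hy⟩ := IsAlgClosed.exists_aeval_eq_zero K h (by
    intro h0
    exact hirr.natDegree_pos.ne' (natDegree_eq_zero_iff_degree_le_zero.2 h0.le))
  obtain ⟨z, hz⟩ := surj v hv y
  have h1 : h.natDegree = (minpoly F y).natDegree := by
    have h2 := minpoly.eq_of_irreducible hirr hy
    rw [← h2, natDegree_mul_C]
    exact inv_ne_zero (leadingCoeff_ne_zero.2 hirr.ne_zero)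
  have h3 : aeval z (f.comp (it (u.comp v) (n + 1))) = 0 := by
    obtain ⟨e, he⟩ := hdvd
    have h4 : aeval y ((f.comp u).comp (it (v.comp u) n)) = 0 := by
      rw [he, map_mul, hy, zero_mul]
    rw [aeval_comp, aeval_comp, aeval_it] at h4
    rw [aeval_comp, aeval_it]
    have h5 : Function.Semiconj (fun x : K => aeval x u) (fun x : K => aeval x (v.comp u))
        (fun x : K => aeval x (u.comp v)) := by
      intro x
      simp only [aeval_comp]
    have h6 := (h5.iterate_right n).eq y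
    rw [Function.iterate_succ_apply]
    have h7 : aeval z (u.comp v) = aeval y u := by rw [aeval_comp, hz]
    rw [h7, ← h6]
    exact h4
  have h4 : (minpoly F y).natDegree ≤ (minpoly F z).natDegree :=
    deg_le v 1 y z hz
  rw [h1]
  exact h4.trans (le_maxDeg f (u.comp v) hf hgd (n + 1) z h3)

end core

/-- Let `F` be a finite field, `f ∈ F[x]` irreducible, `g = u ∘ v` with `u, v ∈ F[x]` not constant,
`(f, g)` not critical.  Suppose that `v ∘ u` is invariant under a rotation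
`x ↦ γ + ζ (x - γ)`, `ζ ≠ 1` (`γ, ζ` in the algebraic closure of `F`), whose centre `γ` is periodic
under `v ∘ u`, `(v ∘ u)^{(r)}(γ) = γ`.  Then `M_{f,g}(n)` grows exponentially: it is
`≥ c (ℓ ^ e) ^ (n / r)` for each prime power `ℓ ^ e ∣ ord(ζ)`, and `n ≪ log M_{f,g}(n)`. -/
theorem result {F : Type} [Field F] [Fintype F] (f u v : F[X]) (hf : Irreducible f)
    (hu : 1 ≤ u.natDegree) (hv : 1 ≤ v.natDegree) (hnc : ¬ Critical f (u.comp v))
    (γ ζ : AlgebraicClosure F) (hζ : ζ ≠ 1)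
    (hsym : ((v.comp u).map (algebraMap F (AlgebraicClosure F))).comp
      (C γ + C ζ * (X - C γ)) = (v.comp u).map (algebraMap F (AlgebraicClosure F)))
    (r : ℕ) (hr : 0 < r)
    (hper : (fun x : AlgebraicClosure F => aeval x (v.comp u))^[r] γ = γ) :
    (∀ ℓ e : ℕ, ℓ.Prime → 1 ≤ e → ℓ ^ e ∣ orderOf ζ → ∃ c : ℝ, 0 < c ∧ ∀ n : ℕ,
      c * ((ℓ : ℝ) ^ e) ^ ((n : ℝ) / r) ≤ maxDeg f (u.comp v) n) ∧
    ∃ c : ℝ, 0 < c ∧ ∃ n₀ : ℕ, ∀ n : ℕ, n₀ ≤ n →
      (n : ℝ) ≤ c * Real.log (maxDeg f (u.comp v) n) := by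
  classical
  have hh : 1 ≤ (v.comp u).natDegree := by
    rw [natDegree_comp]
    exact Nat.mul_pos (by omega) (by omega)
  have hgd : 1 ≤ (u.comp v).natDegree := by
    rw [natDegree_comp]
    exact Nat.mul_pos (by omega) (by omega)
  have hζ0 : ζ ≠ 0 := by
    rintro rfl
    have h1 := congrArg natDegree hsym
    rw [natDegree_comp, natDegree_map] at h1
    simp at h1
    omega
  have hd : 0 < orderOf ζ := by
    rw [orderOf_pos_iff, isOfFinOrder_iff_pow_eq_one]
    have hpos : 0 < (minpoly F ζ).natDegree :=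
      minpoly.natDegree_pos (Algebra.IsIntegral.isIntegral ζ)
    have h2 : 1 < Fintype.card F ^ (minpoly F ζ).natDegree :=
      Nat.one_lt_pow hpos.ne' Fintype.one_lt_card
    refine ⟨Fintype.card F ^ (minpoly F ζ).natDegree - 1, by omega, ?_⟩
    refine mul_right_cancel₀ hζ0 ?_
    rw [← pow_succ, Nat.sub_add_cancel h2.le, frob_deg, one_mul]
  obtain ⟨α, hα, j, hj, w, hw, hwγ⟩ := exists_w f u v hf hu hv γ ζ hζ hsym hnc
  have hfu : f.comp u ≠ 0 := by
    intro h
    rw [comp_eq_zero_iff] at h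
    rcases h with h | ⟨-, h⟩
    · exact hf.ne_zero h
    · rw [h, natDegree_C] at hu
      omega
  have hone : ∀ n, 1 ≤ maxDeg f (u.comp v) n := by
    intro n
    obtain ⟨ω, hω⟩ := IsAlgClosed.exists_aeval_eq_zero (AlgebraicClosure F) f (by
      intro h0
      exact hf.natDegree_pos.ne' (natDegree_eq_zero_iff_degree_le_zero.2 h0.le))
    obtain ⟨z, hz⟩ := surj_it (u.comp v) hgd n ω
    have h1 : aeval z (f.comp (it (u.comp v) n)) = 0 := by
      rw [aeval_comp, aeval_it, hz, hω]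
    have h2 := le_maxDeg f (u.comp v) hf.ne_zero hgd n z h1
    have h3 := minpoly.natDegree_pos (Algebra.IsIntegral.isIntegral (R := F) z)
    omega
  have hA : ∀ ℓ e : ℕ, ℓ.Prime → 1 ≤ e → ℓ ^ e ∣ orderOf ζ → ∃ c : ℝ, 0 < c ∧ ∀ n : ℕ,
      c * ((ℓ : ℝ) ^ e) ^ ((n : ℝ) / r) ≤ maxDeg f (u.comp v) n := by
    intro ℓ e hℓ he hdiv
    obtain ⟨A, hA⟩ := main_est (f.comp u) (v.comp u) hfu hh γ ζ hsym hd r hr hper α w hα j hj
      hw hwγ ℓ e hℓ he hdiv
    obtain ⟨B, hB⟩ : ∃ B : ℝ, B = (ℓ : ℝ) ^ e := ⟨_, rfl⟩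
    have hℓ1 : (1 : ℝ) < ℓ := by exact_mod_cast hℓ.one_lt
    have hB1 : 1 < B := by rw [hB]; exact one_lt_pow₀ hℓ1 (by omega)
    have hB0 : 0 < B := by linarith
    have hr0 : (0 : ℝ) < r := by exact_mod_cast hr
    have hℓA : (0 : ℝ) < (ℓ : ℝ) ^ A := by positivity
    refine ⟨(B ^ (((j : ℝ) + 1) / r + 1))⁻¹ * ((ℓ : ℝ) ^ A)⁻¹, by positivity, fun n => ?_⟩
    rw [← hB]
    have hMpos : (1 : ℝ) ≤ maxDeg f (u.comp v) n := by exact_mod_cast hone n
    have hexp : (B ^ (((j : ℝ) + 1) / r + 1))⁻¹ * ((ℓ : ℝ) ^ A)⁻¹ * B ^ ((n : ℝ) / r) =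
        B ^ ((n : ℝ) / r - (((j : ℝ) + 1) / r + 1)) * ((ℓ : ℝ) ^ A)⁻¹ := by
      rw [Real.rpow_sub hB0]
      field_simp
    rw [hexp]
    rw [← div_eq_mul_inv, div_le_iff₀ hℓA]
    by_cases hn : j + 1 ≤ n
    · -- `n = m + 1`, `k = (m - j) / r`
      obtain ⟨m, rfl⟩ : ∃ m, n = m + 1 := ⟨n - 1, by omega⟩
      obtain ⟨k, hk⟩ : ∃ k, k = (m - j) / r := ⟨_, rfl⟩
      have hk1 : j + k * r ≤ m := by
        have := Nat.div_mul_le_self (m - j) r
        rw [← hk] at this
        omega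
      have hk2 : m - j < (k + 1) * r := by
        exact (Nat.div_lt_iff_lt_mul hr).1 (by omega)
      have h1 := (hA k m hk1).trans (Nat.mul_le_mul_left _ (swap_le f u v hf.ne_zero hu hv m
        (K := AlgebraicClosure F)))
      have h2 : ((ℓ : ℝ) ^ (e * k)) ≤ (ℓ : ℝ) ^ A * maxDeg f (u.comp v) (m + 1) := by
        exact_mod_cast h1
      have h3 : B ^ (((m + 1 : ℕ) : ℝ) / r - (((j : ℝ) + 1) / r + 1)) ≤ B ^ (k : ℝ) := by
        apply Real.rpow_le_rpow_of_exponent_le hB1.le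
        have h4 : (m : ℝ) - j ≤ (k + 1) * r := by
          have h5 : m ≤ (k + 1) * r + j := by omega
          have h6 : (m : ℝ) ≤ ((k + 1) * r + j : ℕ) := by exact_mod_cast h5
          push_cast at h6
          linarith
        have h7 : ((m + 1 : ℕ) : ℝ) / r - (((j : ℝ) + 1) / r + 1) = ((m : ℝ) - j) / r - 1 := by
          push_cast
          field_simp
          ring
        rw [h7, sub_le_iff_le_add, div_le_iff₀ hr0]
        exact h4
      calc B ^ (((m + 1 : ℕ) : ℝ) / r - (((j : ℝ) + 1) / r + 1)) ≤ B ^ (k : ℝ) := h3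
        _ = (ℓ : ℝ) ^ (e * k) := by rw [Real.rpow_natCast, hB, pow_mul]
        _ ≤ (ℓ : ℝ) ^ A * maxDeg f (u.comp v) (m + 1) := h2
        _ = maxDeg f (u.comp v) (m + 1) * (ℓ : ℝ) ^ A := mul_comm _ _
    · have h1 : B ^ ((n : ℝ) / r - (((j : ℝ) + 1) / r + 1)) ≤ 1 := by
        apply Real.rpow_le_one_of_one_le_of_nonpos hB1.le
        have h2 : (n : ℝ) ≤ j + 1 := by
          have : n ≤ j + 1 := by omega
          exact_mod_cast this
        have h3 : (n : ℝ) / r ≤ ((j : ℝ) + 1) / r := by gcongr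
        linarith
      have h2 : (1 : ℝ) ≤ (ℓ : ℝ) ^ A := one_le_pow₀ hℓ1.le
      nlinarith
  refine ⟨hA, ?_⟩
  have hne1 : orderOf ζ ≠ 1 := fun h => hζ (orderOf_eq_one_iff.1 h)
  obtain ⟨ℓ, hℓ, hℓd⟩ := Nat.exists_prime_and_dvd hne1
  obtain ⟨c, hc, hcn⟩ := hA ℓ 1 hℓ le_rfl (by rwa [pow_one])
  have hℓ1 : (1 : ℝ) < ℓ := by exact_mod_cast hℓ.one_lt
  have hlog : 0 < Real.log ℓ := Real.log_pos hℓ1
  have hr0 : (0 : ℝ) < r := by exact_mod_cast hr
  obtain ⟨n₀, hn₀⟩ := exists_nat_ge (-(2 * r * Real.log c / Real.log ℓ))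
  refine ⟨2 * r / Real.log ℓ, by positivity, n₀, fun n hn => ?_⟩
  have h1 := hcn n
  rw [pow_one] at h1
  have h2 := Real.log_le_log (by positivity) h1
  rw [Real.log_mul hc.ne' (by positivity), Real.log_rpow (by linarith)] at h2
  have h3 : -(2 * r * Real.log c / Real.log ℓ) ≤ n := by
    have : (n₀ : ℝ) ≤ n := by exact_mod_cast hn
    linarith
  rw [neg_le, div_eq_mul_inv, ← sub_nonneg] at h3
  have h4 : (n : ℝ) = 2 * r / Real.log ℓ * ((n : ℝ) / r * Real.log ℓ / 2) := by
    field_simp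
  rw [h4]
  apply mul_le_mul_of_nonneg_left _ (by positivity)
  have h5 : -((n : ℝ) / r * Real.log ℓ / 2) ≤ Real.log c := by
    have h6 : 0 ≤ (2 * r * Real.log c * (Real.log ℓ)⁻¹ - -(n : ℝ)) * (Real.log ℓ / (2 * r)) := by
      positivity
    have h7 : (2 * r * Real.log c * (Real.log ℓ)⁻¹ - -(n : ℝ)) * (Real.log ℓ / (2 * r)) =
        Real.log c + (n : ℝ) / r * Real.log ℓ / 2 := by
      field_simp
      ring
    linarith
  linarith

end Pool.Agent.Results.MP_b400b0_nt.RotationSymmetry
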